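import Pool.Agent.W36.GV.GV1

/-! Averages of products along commuting transformations: a van der Corput estimate. -/

set_option autoImplicit false

namespace Pool.Agent.U380.MR

open Finset MeasureTheory Pool.Agent.W36.GU Pool.Agent.W36.GV

variable {G Ω : Type*} [AddCommGroup G] [MeasurableSpace Ω] [AddAction G Ω]

/-- the weighted sum -/
noncomputable def Av (X : ℕ) {k : ℕ} (g : Fin k → G) (f : Fin k → Ω → ℝ) (w : ℤ → ℝ) (x : Ω) : ℝ :=
  ∑ n ∈ Icc (1 : ℤ) X, w n * ∏ i, f i ((n • g i) +ᵥ x)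

/-- bound -/
noncomputable def Bd (X : ℕ) : ℕ → (ℤ → ℝ) → ℝ
  | 0, w => (∑ n ∈ Icc (1 : ℤ) X, w n) ^ 2
  | k + 1, w => ∑ t ∈ Icc (-(X : ℤ)) X, Real.sqrt (Bd X k (De t w))

/-- good family -/
structure Gd {k : ℕ} (f : Fin k → Ω → ℝ) : Prop where
  meas : ∀ i, Measurable (f i)
  bd : ∀ i x, |f i x| ≤ 1

theorem Bd_nonneg (X k : ℕ) (w : ℤ → ℝ) : 0 ≤ Bd X k w := by
  cases k with
  | zero => exact sq_nonneg _
  | succ k => exact sum_nonneg fun t _ => Real.sqrt_nonneg _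

section
variable [MeasurableConstVAdd G Ω]

theorem meas_prod {k : ℕ} {f : Fin k → Ω → ℝ} (hf : Gd f) (g : Fin k → G) :
    Measurable fun x : Ω => ∏ i, f i (g i +ᵥ x) := by
  apply Finset.measurable_prod
  intro i _
  exact (hf.meas i).comp (measurable_const_vadd (g i))

theorem prod_bd {k : ℕ} {f : Fin k → Ω → ℝ} (hf : Gd f) (y : Fin k → Ω) : |∏ i, f i (y i)| ≤ 1 := by
  rw [Finset.abs_prod]
  exact Finset.prod_le_one (fun i _ => abs_nonneg _) (fun i _ => hf.bd i _)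

theorem meas_Av (X : ℕ) {k : ℕ} {f : Fin k → Ω → ℝ} (hf : Gd f) (g : Fin k → G) (w : ℤ → ℝ) :
    Measurable (Av X g f w) := by
  unfold Av
  apply Finset.measurable_sum
  intro n _
  exact (meas_prod hf fun i => n • g i).const_mul (w n)

omit [MeasurableConstVAdd G Ω] in
theorem Av_bd (X : ℕ) {k : ℕ} {f : Fin k → Ω → ℝ} (hf : Gd f) (g : Fin k → G) (w : ℤ → ℝ) (x : Ω) :
    |Av X g f w x| ≤ ∑ n ∈ Icc (1 : ℤ) X, |w n| := by
  unfold Av
  refine (abs_sum_le_sum_abs _ _).trans (sum_le_sum fun n _ => ?_)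
  rw [abs_mul]
  exact mul_le_of_le_one_right (abs_nonneg _) (prod_bd hf _)

/-- the next family -/
def hh {k : ℕ} (g : Fin k → G) (f : Fin k → Ω → ℝ) (t : ℤ) : Fin k → Ω → ℝ :=
  fun i y => f i y * f i ((t • g i) +ᵥ y)

theorem hh_gd {k : ℕ} {f : Fin k → Ω → ℝ} (hf : Gd f) (g : Fin k → G) (t : ℤ) : Gd (hh g f t) where
  meas i := (hf.meas i).mul ((hf.meas i).comp (measurable_const_vadd (t • g i)))
  bd i x := by
    unfold hh
    rw [abs_mul]
    exact mul_le_one₀ (hf.bd i _) (abs_nonneg _) (hf.bd i _)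

end

omit [MeasurableSpace Ω] in
theorem Av_sq {X : ℕ} {k : ℕ} (g : Fin k → G) (f : Fin k → Ω → ℝ) {w : ℤ → ℝ} (hw : Sup w X) (x : Ω) :
    Av X g f w x ^ 2 = ∑ t ∈ Icc (-(X : ℤ)) X, ∑ n ∈ Icc (1 : ℤ) X, De t w n * ∏ i, hh g f t i ((n • g i) +ᵥ x) := by
  have h1 : Sup (fun n => w n * ∏ i, f i ((n • g i) +ᵥ x)) X := fun n hn => hw n (left_ne_zero_of_mul hn)
  have h2 := GN_one h1
  unfold GN at h2
  unfold GN at h2
  unfold Av
  rw [← h2]
  apply sum_congr rfl; intro t _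
  apply sum_congr rfl; intro n _
  unfold De hh
  rw [prod_mul_distrib]
  have h3 : ∏ i, f i (((n + t) • g i) +ᵥ x) = ∏ i, f i ((t • g i) +ᵥ ((n • g i) +ᵥ x)) := by
    apply prod_congr rfl; intro i _
    rw [vadd_vadd, ← add_smul, add_comm t n]
  rw [← h3]
  ring

section
variable [MeasurableConstVAdd G Ω] {μ : Measure Ω} [IsProbabilityMeasure μ] [VAddInvariantMeasure G Ω μ]

omit [MeasurableConstVAdd G Ω] [VAddInvariantMeasure G Ω μ] [AddCommGroup G] [AddAction G Ω] in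
theorem int_bdd {F : Ω → ℝ} (hF : Measurable F) {C : ℝ} (hC : ∀ x, |F x| ≤ C) : Integrable F μ :=
  Integrable.of_bound hF.aestronglyMeasurable C (Filter.Eventually.of_forall fun x => by rw [Real.norm_eq_abs]; exact hC x)

omit [MeasurableConstVAdd G Ω] [VAddInvariantMeasure G Ω μ] [AddCommGroup G] [AddAction G Ω] in
theorem int_abs_le {F : Ω → ℝ} (hF : Measurable F) {C : ℝ} (hC : ∀ x, |F x| ≤ C) :
    ∫ x, |F x| ∂μ ≤ Real.sqrt (∫ x, F x ^ 2 ∂μ) := by
  apply Real.le_sqrt_of_sq_le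
  set c := ∫ x, |F x| ∂μ with hc
  have hC0 : ∀ x, 0 ≤ C := fun x => (abs_nonneg _).trans (hC x)
  have i1 : Integrable (fun x => F x ^ 2) μ := int_bdd (hF.pow_const 2) (C := C ^ 2) (fun x => by
    rw [abs_pow]; exact pow_le_pow_left₀ (abs_nonneg _) (hC x) 2)
  have i2 : Integrable (fun x => |F x|) μ := int_bdd hF.abs (C := C) (fun x => by rw [abs_abs]; exact hC x)
  have h1 : 0 ≤ ∫ x, (|F x| - c) ^ 2 ∂μ := integral_nonneg fun x => sq_nonneg _
  have h2 : ∫ x, (|F x| - c) ^ 2 ∂μ = ∫ x, F x ^ 2 ∂μ - 2 * c * c + c ^ 2 := by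
    have e : (fun x => (|F x| - c) ^ 2) = fun x => (F x ^ 2 - 2 * c * |F x|) + c ^ 2 := by
      ext x; rw [← sq_abs (F x)]; ring
    have i3 : Integrable (fun x => 2 * c * |F x|) μ := i2.const_mul _
    have i4 : Integrable (fun x => F x ^ 2 - 2 * c * |F x|) μ := i1.sub i3
    rw [e, integral_add i4 (integrable_const _), integral_sub i1 i3, integral_const_mul, ← hc]
    simp
  rw [h2] at h1
  nlinarith

omit [IsProbabilityMeasure μ] in
theorem inv_int (F : Ω → ℝ) (g : G) : ∫ x, F (g +ᵥ x) ∂μ = ∫ x, F x ∂μ := by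
  have h := (measurePreserving_vadd g μ).integral_comp (MeasurableEquiv.vadd g).measurableEmbedding F
  exact h

theorem main_bd (X k : ℕ) : ∀ (g : Fin k → G) (f : Fin k → Ω → ℝ) (_ : Gd f) (w : ℤ → ℝ), Sup w X →
    ∫ x, Av X g f w x ^ 2 ∂μ ≤ Bd X k w := by
  induction k with
  | zero =>
    intro g f hf w hw
    have e : (fun x : Ω => Av X g f w x ^ 2) = fun _ => (∑ n ∈ Icc (1 : ℤ) X, w n) ^ 2 := by
      ext x; unfold Av; simp
    rw [e]
    simp [Bd]
  | succ k ih =>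
    intro g f hf w hw
    have e0 : ∀ x, Av X g f w x ^ 2 = ∑ t ∈ Icc (-(X : ℤ)) X, ∑ n ∈ Icc (1 : ℤ) X, De t w n * ∏ i, hh g f t i ((n • g i) +ᵥ x) :=
      fun x => Av_sq g f hw x
    simp_rw [e0]
    have hint : ∀ t n, Integrable (fun x => De t w n * ∏ i, hh g f t i ((n • g i) +ᵥ x)) μ := by
      intro t n
      exact (int_bdd (meas_prod (hh_gd hf g t) fun i => n • g i) (C := 1) (fun x => prod_bd (hh_gd hf g t) _)).const_mul _
    rw [integral_finsetSum _ (fun t _ => integrable_finsetSum _ (fun n _ => hint t n))]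
    unfold Bd
    apply sum_le_sum
    intro t _
    rw [integral_finsetSum _ (fun n _ => hint t n)]
    set g' : Fin k → G := fun i => g i.succ - g 0 with hg'
    set f' : Fin k → Ω → ℝ := fun i => hh g f t i.succ with hf'
    have hf'g : Gd f' := ⟨fun i => (hh_gd hf g t).meas _, fun i => (hh_gd hf g t).bd _⟩
    have e1 : ∀ n : ℤ, ∫ x, De t w n * ∏ i, hh g f t i ((n • g i) +ᵥ x) ∂μ
        = ∫ x, hh g f t 0 x * (De t w n * ∏ i, f' i ((n • g' i) +ᵥ x)) ∂μ := by
      intro n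
      rw [← inv_int (μ := μ) (fun x => hh g f t 0 x * (De t w n * ∏ i, f' i ((n • g' i) +ᵥ x))) (n • g 0)]
      congr 1
      ext x
      rw [Fin.prod_univ_succ]
      have e2 : ∀ i : Fin k, (n • g' i) +ᵥ ((n • g 0) +ᵥ x) = (n • g i.succ) +ᵥ x := by
        intro i
        rw [vadd_vadd, ← smul_add, hg']
        simp
      simp only [e2, hf']
      ring
    simp_rw [e1]
    have hint2 : ∀ n, Integrable (fun x => hh g f t 0 x * (De t w n * ∏ i, f' i ((n • g' i) +ᵥ x))) μ := by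
      intro n
      apply int_bdd (C := |De t w n|)
      · exact ((hh_gd hf g t).meas 0).mul ((meas_prod hf'g fun i => n • g' i).const_mul _)
      · intro x
        rw [abs_mul, abs_mul]
        have h1 := (hh_gd hf g t).bd 0 x
        have h2 := prod_bd hf'g (fun i => (n • g' i) +ᵥ x)
        have h3 : |De t w n| * |∏ i, f' i ((n • g' i) +ᵥ x)| ≤ |De t w n| := mul_le_of_le_one_right (abs_nonneg _) h2
        calc _ ≤ 1 * |De t w n| := mul_le_mul h1 h3 (by positivity) (by norm_num)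
          _ = _ := one_mul _
    rw [← integral_finsetSum _ (fun n _ => hint2 n)]
    have e3 : ∀ x, ∑ n ∈ Icc (1 : ℤ) X, hh g f t 0 x * (De t w n * ∏ i, f' i ((n • g' i) +ᵥ x)) = hh g f t 0 x * Av X g' f' (De t w) x := by
      intro x
      unfold Av
      rw [mul_sum]
    simp_rw [e3]
    have hAm := meas_Av X hf'g g' (De t w)
    have hAb := Av_bd X hf'g g' (De t w)
    calc ∫ x, hh g f t 0 x * Av X g' f' (De t w) x ∂μ ≤ ∫ x, |Av X g' f' (De t w) x| ∂μ := by
          apply integral_mono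
          · apply int_bdd (C := ∑ n ∈ Icc (1 : ℤ) X, |De t w n|)
            · exact ((hh_gd hf g t).meas 0).mul hAm
            · intro x
              rw [abs_mul]
              calc _ ≤ 1 * |Av X g' f' (De t w) x| := mul_le_mul_of_nonneg_right ((hh_gd hf g t).bd 0 x) (abs_nonneg _)
                _ ≤ _ := by rw [one_mul]; exact hAb x
          · exact int_bdd hAm.abs (C := ∑ n ∈ Icc (1 : ℤ) X, |De t w n|) (fun x => by rw [abs_abs]; exact hAb x)
          · intro x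
            simp only
            refine (le_abs_self _).trans ?_
            rw [abs_mul]
            exact mul_le_of_le_one_left (abs_nonneg _) ((hh_gd hf g t).bd 0 x)
      _ ≤ Real.sqrt (∫ x, Av X g' f' (De t w) x ^ 2 ∂μ) := int_abs_le hAm hAb
      _ ≤ Real.sqrt (Bd X k (De t w)) := Real.sqrt_le_sqrt (ih g' f' hf'g _ (De_sup hw t))

end

theorem Bd_le (k : ℕ) {X : ℕ} (hX : 1 ≤ X) : ∀ {w : ℤ → ℝ}, B1 w → Bd X k w ≤ 9 * (X : ℝ) ^ 2 := by
  have hX1 : (1 : ℝ) ≤ X := by exact_mod_cast hX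
  induction k with
  | zero =>
    intro w hw
    unfold Bd
    have h1 : |∑ n ∈ Icc (1 : ℤ) X, w n| ≤ X := by
      refine (abs_sum_le_sum_abs _ _).trans ((sum_le_card_nsmul _ _ _ (fun n _ => hw n)).trans ?_)
      rw [Int.card_Icc]
      simp
    have h2 : (∑ n ∈ Icc (1 : ℤ) X, w n) ^ 2 ≤ (X : ℝ) ^ 2 := by
      rw [← sq_abs]; exact pow_le_pow_left₀ (abs_nonneg _) h1 2
    nlinarith
  | succ k ih =>
    intro w hw
    unfold Bd
    have h1 : ∀ t ∈ Icc (-(X : ℤ)) X, Real.sqrt (Bd X k (De t w)) ≤ 3 * X := by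
      intro t _
      apply Real.sqrt_le_iff.2
      refine ⟨by positivity, (ih (De_B1 hw t)).trans (le_of_eq (by ring))⟩
    refine (sum_le_card_nsmul _ _ _ h1).trans ?_
    rw [nsmul_eq_mul, Int.card_Icc]
    have h2 : (((X : ℤ) + 1 - -(X : ℤ)).toNat : ℝ) ≤ 3 * X := by
      have : ((X : ℤ) + 1 - -(X : ℤ)).toNat = 2 * X + 1 := by omega
      rw [this]; push_cast; linarith
    calc (((X : ℤ) + 1 - -(X : ℤ)).toNat : ℝ) * (3 * X) ≤ (3 * X) * (3 * X) := mul_le_mul_of_nonneg_right h2 (by positivity)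
      _ = _ := by ring

theorem Bd_small (k : ℕ) : ∀ ε : ℝ, 0 < ε → ∃ η : ℝ, 0 < η ∧ ∀ X : ℕ, 1 ≤ X → ∀ w : ℤ → ℝ, B1 w → Sup w X →
    GN (k + 1) w X ≤ η * (X : ℝ) ^ (k + 2) → Bd X k w ≤ ε * (X : ℝ) ^ 2 := by
  induction k with
  | zero =>
    intro ε hε
    refine ⟨ε, hε, fun X hX w hw hs h => ?_⟩
    have h1 := GN_one hs
    rw [zero_add] at h
    rw [h1] at h
    unfold GN at h
    unfold Bd
    exact h
  | succ k ih =>
    intro ε hε
    -- number: (2X+1) sqrt(ε1) X + (η'/η) X * 3 X ≤ ε X^2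
    obtain ⟨η, hη, h⟩ := ih ((ε / 6) ^ 2) (by positivity)
    refine ⟨η * (ε / 6), by positivity, fun X hX w hw hs hG => ?_⟩
    have hX1 : (1 : ℝ) ≤ X := by exact_mod_cast hX
    have hX0 : (0 : ℝ) < X := by linarith
    have h1 := markov (Icc (-(X : ℤ)) X) (fun t => GN (k + 1) (De t w) X) (fun t => Real.sqrt (Bd X k (De t w)))
      (fun t _ => GN_nonneg k (De_sup hs t)) (η := η * (X : ℝ) ^ (k + 2)) (B := 3 * X) (b0 := ε / 6 * X)
      (by positivity) (by positivity)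
      (fun t _ => by
        apply Real.sqrt_le_iff.2
        refine ⟨by positivity, (Bd_le k hX (De_B1 hw t)).trans (le_of_eq (by ring))⟩)
      (by positivity)
      (fun t _ ht => by
        apply Real.sqrt_le_iff.2
        refine ⟨by positivity, (h X hX _ (De_B1 hw t) (De_sup hs t) ht).trans (le_of_eq (by ring))⟩)
    have h2 : ∑ t ∈ Icc (-(X : ℤ)) X, GN (k + 1) (De t w) X = GN (k + 2) w X := rfl
    rw [h2] at h1
    have h3 : ((Icc (-(X : ℤ)) X).card : ℝ) ≤ 3 * X := by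
      rw [Int.card_Icc]
      have : ((X : ℤ) + 1 - -(X : ℤ)).toNat = 2 * X + 1 := by omega
      rw [this]; push_cast; linarith
    unfold Bd
    refine h1.trans ?_
    have h4 : GN (k + 2) w X / (η * (X : ℝ) ^ (k + 2)) ≤ ε / 6 * X := by
      rw [div_le_iff₀ (by positivity)]
      calc GN (k + 2) w X ≤ η * (ε / 6) * (X : ℝ) ^ (k + 1 + 2) := hG
        _ = _ := by ring
    have h5 : ((Icc (-(X : ℤ)) X).card : ℝ) * (ε / 6 * X) ≤ (3 * X) * (ε / 6 * X) :=
      mul_le_mul_of_nonneg_right h3 (by positivity)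
    have h6 : GN (k + 2) w X / (η * (X : ℝ) ^ (k + 2)) * (3 * X) ≤ (ε / 6 * X) * (3 * X) :=
      mul_le_mul_of_nonneg_right h4 (by positivity)
    calc _ ≤ (3 * X) * (ε / 6 * X) + (ε / 6 * X) * (3 * X) := add_le_add h5 h6
      _ = ε * (X : ℝ) ^ 2 := by ring

end Pool.Agent.U380.MR
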