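import Pool.Agent.U380.MR.V1
import Pool.Agent.H602R3.DHJ.Main

/-! Multiple recurrence for the actions of commutative groups, from the density Hales-Jewett theorem. -/

set_option autoImplicit false

namespace Pool.Agent.U380.MR

open Finset MeasureTheory Pool.Agent.H602R3.DHJ

open Classical in
/-- sums along a line -/
theorem sum_line {G : Type*} [AddCommGroup G] {k N : ℕ} (V : Fin N → Fin (k + 1) ⊕ Unit)
    (g : Fin N → Fin (k + 1) → G) :
    ∃ s : G, ∀ a, ∑ i, g i (ap V (fun _ => a) i) =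
      s + ∑ i ∈ univ.filter (fun i => V i = Sum.inr ()), g i a := by
  refine ⟨∑ i ∈ univ.filter (fun i => ¬ V i = Sum.inr ()), g i (ap V (fun _ => 0) i), fun a => ?_⟩
  rw [← sum_filter_add_sum_filter_not univ (fun i => V i = Sum.inr ()), add_comm]
  congr 1
  · refine sum_congr rfl fun i hi => ?_
    have h := (mem_filter.1 hi).2
    congr 1
    unfold ap
    rcases hV : V i with b | u
    · rfl
    · exact absurd (by rw [hV]) h
  · refine sum_congr rfl fun i hi => ?_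
    have h := (mem_filter.1 hi).2
    congr 1
    unfold ap
    rw [h]
    rfl

theorem ipr_mp (q : ℕ) (δ : ℝ) (hδ : 0 < δ) : ∃ (r : ℕ) (η : ℝ), 0 < η ∧
    ∀ (G Ω : Type) [AddCommGroup G] [MeasurableSpace Ω] [AddAction G Ω] [MeasurableConstVAdd G Ω]
      (μ : Measure Ω) [IsProbabilityMeasure μ] [VAddInvariantMeasure G Ω μ] (B : Set Ω), MeasurableSet B → δ ≤ μ.real B →
    ∀ (g : Fin (q + 1) → G) (h : Fin r → ℤ), ∃ I : Finset (Fin r), I.Nonempty ∧
      η ≤ μ.real {x | ∀ t, ((∑ i ∈ I, h i) • g t) +ᵥ x ∈ B} := by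
  classical
  obtain ⟨r, hr⟩ := dhj q (δ / 2) (by positivity)
  obtain ⟨T, hT⟩ : ∃ T : ℕ, T = Fintype.card (Fin r → Fin (q + 1) ⊕ Unit) := ⟨_, rfl⟩
  have hT0 : 0 < T := by
    rw [hT]
    exact Fintype.card_pos
  have hT0' : (0 : ℝ) < T := by exact_mod_cast hT0
  refine ⟨r, δ / (2 * T), by positivity, ?_⟩
  intro G Ω _ _ _ _ μ _ _ B hB hμB g h
  obtain ⟨v, hv⟩ : ∃ v : (Fin r → Fin (q + 1)) → G, v = fun u => ∑ i, h i • g (u i) := ⟨_, rfl⟩
  have hline : ∀ V : Fin r → Fin (q + 1) ⊕ Unit, ∃ s : G, ∀ a,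
      ∑ i, h i • g (ap V (fun _ => a) i) =
      s + ∑ i ∈ univ.filter (fun i => V i = Sum.inr ()), h i • g a := fun V =>
    sum_line V (fun i b => h i • g b)
  choose s hs using hline
  obtain ⟨W, hW⟩ : ∃ W : Ω → Set (Fin r → Fin (q + 1)), W = fun y => {u | v u +ᵥ y ∈ B} := ⟨_, rfl⟩
  -- the line sets
  obtain ⟨E, hE⟩ : ∃ E : (Fin r → Fin (q + 1) ⊕ Unit) → Set Ω, E = fun V => {x | ∀ t, v (ap V (fun _ => t)) +ᵥ x ∈ B} := ⟨_, rfl⟩
  have hcover : ∀ x, δ / 2 ≤ dn (W x) → ∃ V, Pr V ∧ x ∈ E V := by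
    intro x hx
    have hnl : ¬ LFr (W x) := fun hl => absurd (hr _ hl) (not_lt.2 hx)
    unfold LFr at hnl
    push Not at hnl
    obtain ⟨V, hV, hVW⟩ := hnl
    refine ⟨V, hV, ?_⟩
    rw [hE]
    intro t
    have h1 := hVW t
    rw [hW] at h1
    exact h1
  have hTpos : (0 : ℝ) < Fintype.card (Fin r → Fin (q + 1)) := by exact_mod_cast Fintype.card_pos
  have hdn : ∀ y, dn (W y) = (∑ u, ((fun z => v u +ᵥ z) ⁻¹' B).indicator (fun _ => (1 : ℝ)) y) /
      Fintype.card (Fin r → Fin (q + 1)) := by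
    intro y
    unfold dn av
    congr 1
    refine sum_congr rfl fun u _ => ?_
    rw [Set.indicator_apply, Set.indicator_apply]
    rw [hW]
    rfl
  have hms : ∀ u, MeasurableSet ((fun z => v u +ᵥ z) ⁻¹' B : Set Ω) := fun u => measurable_const_vadd (v u) hB
  have hinv : ∀ (c : G) (A : Set Ω), MeasurableSet A → μ.real ((fun z => c +ᵥ z) ⁻¹' A) = μ.real A := by
    intro c A _
    unfold Measure.real
    rw [measure_preimage_vadd]
  have hmsE : ∀ V, MeasurableSet (E V) := by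
    intro V
    rw [hE]
    have : {x : Ω | ∀ t, v (ap V (fun _ => t)) +ᵥ x ∈ B} = ⋂ t, ((fun z => v (ap V (fun _ => t)) +ᵥ z) ⁻¹' B) := by
      ext x; simp
    simp only [this]
    exact MeasurableSet.iInter fun t => hms _
  have hint1 : Integrable (fun x => dn (W x)) μ := by
    simp_rw [hdn]
    apply Integrable.div_const
    apply integrable_finsetSum
    intro u _
    exact (integrable_const (1 : ℝ)).indicator (hms u)
  have hval : ∫ x, dn (W x) ∂μ = μ.real B := by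
    simp_rw [hdn]
    rw [integral_div, integral_finsetSum _ (fun u _ => (integrable_const (1 : ℝ)).indicator (hms u))]
    have : ∀ u, ∫ x, ((fun z => v u +ᵥ z) ⁻¹' B).indicator (fun _ => (1 : ℝ)) x ∂μ = μ.real B := by
      intro u
      rw [integral_indicator_const _ (hms u), hinv _ _ hB]
      simp
    simp_rw [this]
    rw [sum_const, card_univ, nsmul_eq_mul]
    field_simp
  have hle : ∀ x, dn (W x) ≤ δ / 2 + ∑ V ∈ univ.filter (fun V : Fin r → Fin (q + 1) ⊕ Unit => Pr V), (E V).indicator (fun _ => (1 : ℝ)) x := by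
    intro x
    have hnn : ∀ V ∈ univ.filter (fun V : Fin r → Fin (q + 1) ⊕ Unit => Pr V), 0 ≤ (E V).indicator (fun _ => (1 : ℝ)) x :=
      fun V _ => Set.indicator_nonneg (fun _ _ => zero_le_one) x
    rcases le_or_gt (δ / 2) (dn (W x)) with hx | hx
    · obtain ⟨V, hV, hxV⟩ := hcover x hx
      have h1 := single_le_sum hnn (mem_filter.2 ⟨mem_univ V, hV⟩)
      rw [Set.indicator_of_mem hxV] at h1
      have h2 := dn_le_one (W x)
      linarith
    · have := sum_nonneg hnn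
      linarith
  have hintE : ∀ V ∈ univ.filter (fun V : Fin r → Fin (q + 1) ⊕ Unit => Pr V), Integrable ((E V).indicator (fun _ => (1 : ℝ))) μ :=
    fun V _ => (integrable_const (1 : ℝ)).indicator (hmsE V)
  have hI : μ.real B ≤ δ / 2 + ∑ V ∈ univ.filter (fun V : Fin r → Fin (q + 1) ⊕ Unit => Pr V), μ.real (E V) := by
    rw [← hval]
    refine (integral_mono hint1 ((integrable_const _).add (integrable_finsetSum _ hintE)) hle).trans (le_of_eq ?_)
    simp only [Pi.add_apply]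
    rw [integral_add (integrable_const _) (integrable_finsetSum _ hintE), integral_finsetSum _ hintE]
    congr 1
    · simp
    · apply sum_congr rfl
      intro V _
      rw [integral_indicator_const _ (hmsE V)]
      simp
  have hex : ∃ V, Pr V ∧ δ / (2 * T) ≤ μ.real (E V) := by
    by_contra hcon
    push Not at hcon
    have h1 : ∑ V ∈ univ.filter (fun V : Fin r → Fin (q + 1) ⊕ Unit => Pr V), μ.real (E V) < δ / 2 ∨
        univ.filter (fun V : Fin r → Fin (q + 1) ⊕ Unit => Pr V) = ∅ := by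
      rcases (univ.filter (fun V : Fin r → Fin (q + 1) ⊕ Unit => Pr V)).eq_empty_or_nonempty with h0 | h0
      · right; exact h0
      · left
        calc ∑ V ∈ univ.filter (fun V : Fin r → Fin (q + 1) ⊕ Unit => Pr V), μ.real (E V)
            < ∑ V ∈ univ.filter (fun V : Fin r → Fin (q + 1) ⊕ Unit => Pr V), δ / (2 * T) :=
              sum_lt_sum_of_nonempty h0 (fun V hV => hcon V (mem_filter.1 hV).2)
          _ = ((univ.filter (fun V : Fin r → Fin (q + 1) ⊕ Unit => Pr V)).card : ℝ) * (δ / (2 * T)) := by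
              rw [sum_const, nsmul_eq_mul]
          _ ≤ T * (δ / (2 * T)) := by
              apply mul_le_mul_of_nonneg_right _ (by positivity)
              rw [hT]
              exact_mod_cast card_le_univ _
          _ = δ / 2 := by field_simp
    rcases h1 with h1 | h1
    · linarith
    · rw [h1, sum_empty] at hI
      linarith
  obtain ⟨V, hV, hVE⟩ := hex
  refine ⟨univ.filter (fun i => V i = Sum.inr ()), ?_, ?_⟩
  · obtain ⟨i, hi⟩ := hV ()
    exact ⟨i, mem_filter.2 ⟨mem_univ _, hi⟩⟩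
  · refine hVE.trans (le_of_eq ?_)
    have hA : MeasurableSet {x : Ω | ∀ t, ((∑ i ∈ univ.filter (fun i => V i = Sum.inr ()), h i) • g t) +ᵥ x ∈ B} := by
      have : {x : Ω | ∀ t, ((∑ i ∈ univ.filter (fun i => V i = Sum.inr ()), h i) • g t) +ᵥ x ∈ B}
          = ⋂ t, ((fun z => ((∑ i ∈ univ.filter (fun i => V i = Sum.inr ()), h i) • g t) +ᵥ z) ⁻¹' B) := by
        ext x; simp
      rw [this]
      exact MeasurableSet.iInter fun t => measurable_const_vadd _ hB
    rw [← hinv (s V) _ hA]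
    congr 1
    ext x
    rw [hE, hv]
    simp only [Set.mem_ofPred_eq, Set.mem_preimage]
    apply forall_congr'
    intro t
    rw [hs V t, vadd_vadd, ← sum_smul, add_comm]

/-- the measure of the return set -/
noncomputable def Rt {G Ω : Type*} [AddCommGroup G] [MeasurableSpace Ω] [AddAction G Ω] (μ : Measure Ω) {q : ℕ} (g : Fin q → G)
    (B : Set Ω) (n : ℤ) : ℝ := μ.real {x | ∀ t, (n • g t) +ᵥ x ∈ B}

theorem Rt_nonneg {G Ω : Type*} [AddCommGroup G] [MeasurableSpace Ω] [AddAction G Ω] (μ : Measure Ω) {q : ℕ} (g : Fin q → G)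
    (B : Set Ω) (n : ℤ) : 0 ≤ Rt μ g B n := measureReal_nonneg

/-- Furstenberg-Katznelson, averages -/
theorem FK (q : ℕ) (δ : ℝ) (hδ : 0 < δ) : ∃ c : ℝ, 0 < c ∧ ∃ N₀ : ℕ,
    ∀ (G Ω : Type) [AddCommGroup G] [MeasurableSpace Ω] [AddAction G Ω] [MeasurableConstVAdd G Ω]
      (μ : Measure Ω) [IsProbabilityMeasure μ] [VAddInvariantMeasure G Ω μ] (B : Set Ω), MeasurableSet B → δ ≤ μ.real B →
    ∀ (g : Fin (q + 1) → G) (N : ℕ), N₀ ≤ N → c * N ≤ ∑ n ∈ Icc (1 : ℤ) N, Rt μ g B n := by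
  obtain ⟨r, η, hη, h⟩ := ipr_mp q δ hδ
  refine ⟨η / (2 * (r + 1) ^ 2), by positivity, r + 1, ?_⟩
  intro G Ω _ _ _ _ μ _ _ B hB hμB g N hN
  have h1 : ∀ m : ℤ, η ≤ ∑ j ∈ Icc (1 : ℤ) r, Rt μ g B (j * m) := by
    intro m
    obtain ⟨I, hI, h2⟩ := h G Ω μ B hB hμB g (fun _ => m)
    rw [sum_const] at h2
    have h3 : (I.card : ℤ) ∈ Icc (1 : ℤ) r := by
      rw [mem_Icc]
      have h4 := card_le_univ I
      rw [Fintype.card_fin] at h4
      have h5 := hI.card_pos
      omega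
    have h6 := single_le_sum (f := fun j => Rt μ g B (j * m)) (fun j _ => Rt_nonneg μ g B _) h3
    refine le_trans ?_ h6
    unfold Rt
    rw [nsmul_eq_mul] at h2
    exact h2
  have h2 : ((N / (r + 1) : ℕ) : ℝ) * η ≤ ∑ m ∈ Icc (1 : ℤ) (N / (r + 1) : ℕ), ∑ j ∈ Icc (1 : ℤ) r, Rt μ g B (j * m) := by
    calc ((N / (r + 1) : ℕ) : ℝ) * η = ∑ _m ∈ Icc (1 : ℤ) (N / (r + 1) : ℕ), η := by
          rw [sum_const, Int.card_Icc, nsmul_eq_mul, add_sub_cancel_right, Int.toNat_natCast]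
      _ ≤ _ := sum_le_sum fun m _ => h1 m
  rw [sum_comm] at h2
  have h3 : ∀ j ∈ Icc (1 : ℤ) r, ∑ m ∈ Icc (1 : ℤ) (N / (r + 1) : ℕ), Rt μ g B (j * m) ≤ ∑ n ∈ Icc (1 : ℤ) N, Rt μ g B n := by
    intro j hj
    rw [mem_Icc] at hj
    have hinj : Function.Injective (fun m : ℤ => j * m) := fun a b hab => by
      have : j ≠ 0 := by omega
      exact mul_left_cancel₀ this hab
    have e : ∑ m ∈ Icc (1 : ℤ) (N / (r + 1) : ℕ), Rt μ g B (j * m) = ∑ n ∈ (Icc (1 : ℤ) (N / (r + 1) : ℕ)).map ⟨fun m => j * m, hinj⟩, Rt μ g B n := by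
      rw [sum_map]; rfl
    rw [e]
    apply sum_le_sum_of_subset_of_nonneg
    · intro n hn
      rw [mem_map] at hn
      obtain ⟨m, hm, rfl⟩ := hn
      rw [mem_Icc] at hm ⊢
      simp only [Function.Embedding.coeFn_mk]
      have h7 : (N / (r + 1) : ℕ) * (r + 1) ≤ N := Nat.div_mul_le_self _ _
      have h8 : ((N / (r + 1) : ℕ) : ℤ) * (r + 1) ≤ N := by exact_mod_cast h7
      constructor
      · nlinarith
      · calc j * m ≤ (r + 1) * (N / (r + 1) : ℕ) := by
              apply mul_le_mul (by omega) hm.2 (by omega) (by omega)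
          _ ≤ N := by linarith
    · intro n _ _
      exact Rt_nonneg μ g B n
  have h4 := h2.trans (sum_le_card_nsmul _ _ _ h3)
  rw [Int.card_Icc, nsmul_eq_mul] at h4
  have h5 : (((r : ℤ) + 1 - 1).toNat : ℝ) = r := by simp
  rw [h5] at h4
  have hS : 0 ≤ ∑ n ∈ Icc (1 : ℤ) N, Rt μ g B n := sum_nonneg fun n _ => Rt_nonneg μ g B n
  have h6 : (N : ℝ) / (2 * (r + 1)) ≤ ((N / (r + 1) : ℕ) : ℝ) := by
    have h7 : N < (N / (r + 1) + 1) * (r + 1) := by
      have := Nat.lt_div_mul_add (a := N) (b := r + 1) (by omega)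
      nlinarith
    have h8 : (N : ℝ) < ((N / (r + 1) : ℕ) + 1) * (r + 1) := by exact_mod_cast h7
    have h9 : (1 : ℝ) ≤ ((N / (r + 1) : ℕ) : ℝ) := by
      have : 1 ≤ N / (r + 1) := (Nat.one_le_div_iff (by omega)).2 hN
      exact_mod_cast this
    rw [div_le_iff₀ (by positivity)]
    nlinarith [show (0 : ℝ) ≤ r from by positivity]
  have h7 : (N : ℝ) / (2 * (r + 1)) * η ≤ (r + 1) * ∑ n ∈ Icc (1 : ℤ) N, Rt μ g B n := by
    calc (N : ℝ) / (2 * (r + 1)) * η ≤ ((N / (r + 1) : ℕ) : ℝ) * η := mul_le_mul_of_nonneg_right h6 hη.le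
      _ ≤ r * ∑ n ∈ Icc (1 : ℤ) N, Rt μ g B n := h4
      _ ≤ _ := by nlinarith
  have e1 : η / (2 * ((r : ℝ) + 1) ^ 2) * N = ((N : ℝ) / (2 * (r + 1)) * η) / (r + 1) := by field_simp
  rw [e1, div_le_iff₀ (by positivity)]
  linarith

end Pool.Agent.U380.MR
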