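import Pool.Agent.U380.MR.V2
import Pool.Agent.W36.GK.K14

/-! Averages with weights of small Gowers norms. -/

set_option autoImplicit false

namespace Pool.Agent.U380.MR

open Finset MeasureTheory Pool.Agent.W36.GU Pool.Agent.W36.GV Pool.Agent.W36.GK

theorem L2_class {F : Set (ℤ → ℝ)} (hF : ∀ f ∈ F, ∀ n, |f n| ≤ 1) (k : ℕ) (h : Sm (k + 1) F) (ε : ℝ) (hε : 0 < ε) :
    ∃ N₀ : ℕ, ∀ f ∈ F, ∀ (G Ω : Type) [AddCommGroup G] [MeasurableSpace Ω] [AddAction G Ω] [MeasurableConstVAdd G Ω]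
      (μ : Measure Ω) [IsProbabilityMeasure μ] [VAddInvariantMeasure G Ω μ] (g : Fin k → G) (φ : Fin k → Ω → ℝ), Gd φ →
      ∀ N : ℕ, N₀ ≤ N → ∀ M N' : ℕ, M ≤ N' → N' ≤ N →
        ∫ x, Av N g φ (win M N' f) x ^ 2 ∂μ ≤ ε * (N : ℝ) ^ 2 := by
  obtain ⟨η, hη, h1⟩ := Bd_small k ε hε
  obtain ⟨X0, h2⟩ := h η hη
  refine ⟨X0 + 1, ?_⟩
  intro f hf G Ω _ _ _ _ μ _ _ g φ hφ N hN M N' hM hN'
  refine (main_bd N k g φ hφ _ (win_sup f M hN')).trans ?_
  exact h1 N (by omega) _ (win_abs (hF f hf) M N') (win_sup f M hN') (h2 N (by omega) f hf M N' hM hN')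

/-- weak form -/
theorem weak {G Ω : Type*} [AddCommGroup G] [MeasurableSpace Ω] [AddAction G Ω] [MeasurableConstVAdd G Ω]
    (μ : Measure Ω) [IsProbabilityMeasure μ] {q : ℕ} (g : Fin q → G) {B : Set Ω} (hB : MeasurableSet B)
    (X : ℕ) (w : ℤ → ℝ) : |∑ n ∈ Icc (1 : ℤ) X, w n * Rt μ g B n|
      ≤ Real.sqrt (∫ x, Av X g (fun _ => B.indicator fun _ => (1 : ℝ)) w x ^ 2 ∂μ) := by
  have hφ : Gd (fun _ : Fin q => B.indicator fun _ : Ω => (1 : ℝ)) :=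
    ⟨fun _ => measurable_const.indicator hB, fun _ x => by
      by_cases hx : x ∈ B
      · rw [Set.indicator_of_mem hx]; simp
      · rw [Set.indicator_of_notMem hx]; simp⟩
  have e1 : ∀ n : ℤ, Rt μ g B n = ∫ x, ∏ t, (B.indicator fun _ => (1 : ℝ)) ((n • g t) +ᵥ x) ∂μ := by
    intro n
    have hA : MeasurableSet {x : Ω | ∀ t, (n • g t) +ᵥ x ∈ B} := by
      have : {x : Ω | ∀ t, (n • g t) +ᵥ x ∈ B} = ⋂ t, ((fun z => (n • g t) +ᵥ z) ⁻¹' B) := by
        ext x; simp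
      rw [this]
      exact MeasurableSet.iInter fun t => measurable_const_vadd _ hB
    have e2 : (fun x => ∏ t, (B.indicator fun _ => (1 : ℝ)) ((n • g t) +ᵥ x))
        = {x : Ω | ∀ t, (n • g t) +ᵥ x ∈ B}.indicator fun _ => (1 : ℝ) := by
      ext x
      by_cases hx : ∀ t, (n • g t) +ᵥ x ∈ B
      · rw [Set.indicator_of_mem (by exact hx)]
        exact prod_eq_one fun t _ => by rw [Set.indicator_of_mem (hx t)]
      · rw [Set.indicator_of_notMem (by exact hx)]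
        push Not at hx
        obtain ⟨t, ht⟩ := hx
        exact prod_eq_zero (mem_univ t) (Set.indicator_of_notMem ht _)
    rw [e2, integral_indicator_const _ hA]
    unfold Rt
    simp
  have e3 : ∑ n ∈ Icc (1 : ℤ) X, w n * Rt μ g B n = ∫ x, Av X g (fun _ => B.indicator fun _ => (1 : ℝ)) w x ∂μ := by
    unfold Av
    rw [integral_finsetSum]
    · apply sum_congr rfl
      intro n _
      rw [integral_const_mul, e1]
    · intro n _
      exact (int_bdd (meas_prod hφ fun i => n • g i) (C := 1) (fun x => prod_bd hφ _)).const_mul _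
  rw [e3]
  refine (abs_integral_le_integral_abs).trans ?_
  exact int_abs_le (meas_Av X hφ g w) (Av_bd X hφ g w)

/-- recurrence along the sets of a class -/
theorem rec_class {F : Set (ℤ → ℝ)} (hF : ∀ f ∈ F, ∀ n, |f n| ≤ 1) (q : ℕ) (h : Sm (q + 2) F) (γ ρ : ℝ) (hγ : 0 < γ) (hρ : 0 < ρ) :
    ∃ c : ℝ, 0 < c ∧ ∃ N₀ : ℕ, ∀ (u : ℤ → ℝ) (δ : ℝ), γ ≤ δ → (fun n => u n - δ) ∈ F →
      ∀ (G Ω : Type) [AddCommGroup G] [MeasurableSpace Ω] [AddAction G Ω] [MeasurableConstVAdd G Ω]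
      (μ : Measure Ω) [IsProbabilityMeasure μ] [VAddInvariantMeasure G Ω μ] (B : Set Ω), MeasurableSet B → ρ ≤ μ.real B →
      ∀ (g : Fin (q + 1) → G) (N : ℕ), N₀ ≤ N → c * N ≤ ∑ n ∈ Icc (1 : ℤ) N, u n * Rt μ g B n := by
  obtain ⟨c, hc, N1, h1⟩ := FK q ρ hρ
  obtain ⟨N2, h2⟩ := L2_class hF (q + 1) h ((γ * c / 2) ^ 2) (by positivity)
  refine ⟨γ * c / 2, by positivity, N1 + N2, ?_⟩
  intro u δ hδ hu G Ω _ _ _ _ μ _ _ B hB hμB g N hN
  have h3 := h1 G Ω μ B hB hμB g N (by omega)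
  have hφ : Gd (fun _ : Fin (q + 1) => B.indicator fun _ : Ω => (1 : ℝ)) :=
    ⟨fun _ => measurable_const.indicator hB, fun _ x => by
      by_cases hx : x ∈ B
      · rw [Set.indicator_of_mem hx]; simp
      · rw [Set.indicator_of_notMem hx]; simp⟩
  have h4 := h2 _ hu G Ω μ g _ hφ N (by omega) 0 N (Nat.zero_le _) le_rfl
  have h5 := weak μ g hB N (win 0 N (fun n => u n - δ))
  have h6 : |∑ n ∈ Icc (1 : ℤ) N, win 0 N (fun n => u n - δ) n * Rt μ g B n| ≤ γ * c / 2 * N := by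
    refine h5.trans ?_
    apply Real.sqrt_le_iff.2
    exact ⟨by positivity, h4.trans (le_of_eq (by ring))⟩
  have h7 : ∑ n ∈ Icc (1 : ℤ) N, win 0 N (fun n => u n - δ) n * Rt μ g B n
      = ∑ n ∈ Icc (1 : ℤ) N, u n * Rt μ g B n - δ * ∑ n ∈ Icc (1 : ℤ) N, Rt μ g B n := by
    rw [mul_sum, ← sum_sub_distrib]
    apply sum_congr rfl
    intro n hn
    rw [mem_Icc] at hn
    unfold win
    rw [if_pos (by push_cast; omega)]
    ring
  rw [h7, abs_le] at h6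
  have h8 : γ * (c * N) ≤ δ * ∑ n ∈ Icc (1 : ℤ) N, Rt μ g B n := mul_le_mul hδ h3 (by positivity) (hγ.le.trans hδ)
  linarith [h6.1]

end Pool.Agent.U380.MR
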