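import Pool.Agent.U380.MR.V2

/-! From recurrence to configurations in dense sets of lattice points. -/

set_option autoImplicit false

namespace Pool.Agent.U380.MR

open Finset MeasureTheory

/-- recurrence with weights `u` up to `N` -/
def Rc (u : ℤ → ℝ) (q : ℕ) (ρ c : ℝ) (N : ℕ) : Prop :=
  ∀ (G Ω : Type) [AddCommGroup G] [MeasurableSpace Ω] [AddAction G Ω] [MeasurableConstVAdd G Ω]
      (μ : Measure Ω) [IsProbabilityMeasure μ] [VAddInvariantMeasure G Ω μ] (B : Set Ω), MeasurableSet B → ρ ≤ μ.real B →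
      ∀ (g : Fin (q + 1) → G), c * N ≤ ∑ n ∈ Icc (1 : ℤ) N, u n * Rt μ g B n

/-- normalised counting measure -/
noncomputable def cm (G : Type) [Fintype G] [MeasurableSpace G] : Measure G := (Fintype.card G : ENNReal)⁻¹ • Measure.count

theorem cm_apply (G : Type) [Fintype G] [MeasurableSpace G] [MeasurableSingletonClass G] (B : Set G) :
    (cm G).real B = (B.ncard : ℝ) / Fintype.card G := by
  unfold cm Measure.real
  rw [Measure.smul_apply, Measure.count_apply (Set.toFinite B).measurableSet]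
  rw [smul_eq_mul, ENNReal.toReal_mul, ENNReal.toReal_inv, ENNReal.toReal_natCast]
  rw [← (Set.toFinite B).cast_ncard_eq]
  rw [div_eq_inv_mul]
  congr 1

theorem fin_case {u : ℤ → ℝ} {q : ℕ} {ρ c : ℝ} {N : ℕ} (h : Rc u q ρ c N) (G : Type) [AddCommGroup G] [Fintype G]
    (B : Set G) (hB : ρ * Fintype.card G ≤ B.ncard) (g : Fin (q + 1) → G) :
    c * N * Fintype.card G ≤ ∑ n ∈ Icc (1 : ℤ) N, u n * ({x : G | ∀ t, n • g t + x ∈ B}.ncard : ℝ) := by
  let _ : MeasurableSpace G := ⊤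
  have : MeasurableSingletonClass G := ⟨fun _ => trivial⟩
  have hcard : (0 : ℝ) < Fintype.card G := by exact_mod_cast Fintype.card_pos
  have : MeasurableConstVAdd G G := ⟨fun c => by intro s _; trivial⟩
  have : IsProbabilityMeasure (cm G) := ⟨by
    have h1 := cm_apply G Set.univ
    rw [Set.ncard_univ, Nat.card_eq_fintype_card, div_self hcard.ne'] at h1
    unfold Measure.real at h1
    have h2 : (cm G) Set.univ ≠ ⊤ := by
      intro h3
      rw [h3] at h1
      simp at h1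
    rw [← ENNReal.ofReal_toReal h2, h1]
    simp⟩
  have : VAddInvariantMeasure G G (cm G) := ⟨fun c s _ => by
    have h1 : (cm G).real ((fun x => c +ᵥ x) ⁻¹' s) = (cm G).real s := by
      rw [cm_apply, cm_apply]
      congr 2
      exact Set.ncard_preimage_of_injective_subset_range (add_right_injective c) (by
        intro y _
        exact ⟨-c + y, by simp⟩)
    unfold Measure.real at h1
    exact (ENNReal.toReal_eq_toReal_iff' (measure_ne_top _ _) (measure_ne_top _ _)).1 h1⟩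
  have h1 := h G G (cm G) B trivial (by rw [cm_apply, le_div_iff₀ hcard]; exact hB) g
  have h2 : ∀ n : ℤ, Rt (cm G) g B n = ({x : G | ∀ t, n • g t + x ∈ B}.ncard : ℝ) / Fintype.card G := by
    intro n
    unfold Rt
    rw [cm_apply]
    rfl
  simp_rw [h2] at h1
  have h3 : ∑ n ∈ Icc (1 : ℤ) N, u n * (({x : G | ∀ t, n • g t + x ∈ B}.ncard : ℝ) / Fintype.card G)
      = (∑ n ∈ Icc (1 : ℤ) N, u n * ({x : G | ∀ t, n • g t + x ∈ B}.ncard : ℝ)) / Fintype.card G := by
    rw [sum_div]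
    exact sum_congr rfl fun n _ => by rw [mul_div_assoc]
  rw [h3, le_div_iff₀ hcard] at h1
  exact h1

/-- the half-open cube -/
def Cube {e : ℕ} (x : Fin e → ℤ) (L : ℕ) : Set (Fin e → ℤ) := {v | ∀ i, x i ≤ v i ∧ v i < x i + L}

theorem Cube_eq {e : ℕ} (x : Fin e → ℤ) (L : ℕ) : Cube x L = ↑(Fintype.piFinset (fun i => Finset.Ico (x i) (x i + L))) := by
  ext v
  simp [Cube]

theorem Cube_fin {e : ℕ} (x : Fin e → ℤ) (L : ℕ) : (Cube x L).Finite := by
  rw [Cube_eq]
  exact Finset.finite_toSet _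

theorem Cube_card {e : ℕ} (x : Fin e → ℤ) (L : ℕ) : (Cube x L).ncard = L ^ e := by
  rw [Cube_eq, Set.ncard_coe_finset, Fintype.card_piFinset]
  simp

/-- configurations in a cube -/
theorem cube_case {u : ℤ → ℝ} (hu : ∀ n, 0 ≤ u n) {q e : ℕ} (F : Fin (q + 1) → Fin e → ℤ) {R : ℕ} (hR : ∀ t i, |F t i| ≤ R)
    {ρ c : ℝ} (hc : 0 ≤ c) {N : ℕ}
    (h : Rc u q (ρ / (2 * R + 1) ^ e) c N) {L : ℕ} (hL : N ≤ L) (hL1 : 1 ≤ L) (x0 : Fin e → ℤ) (A : Set (Fin e → ℤ))
    (hA : ρ * (L : ℝ) ^ e ≤ ((A ∩ Cube x0 L).ncard : ℝ)) :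
    c * N * (L : ℝ) ^ e ≤ ∑ n ∈ Icc (1 : ℤ) N, u n * ({a : Fin e → ℤ | ∀ t, a + n • F t ∈ A ∩ Cube x0 L}.ncard : ℝ) := by
  classical
  set M : ℕ := (2 * R + 1) * L with hM
  have hM0 : 0 < M := by positivity
  have : NeZero M := ⟨hM0.ne'⟩
  have hML : L ≤ M := by nlinarith
  have hcard : (Fintype.card (Fin e → ZMod M) : ℝ) = (2 * R + 1) ^ e * (L : ℝ) ^ e := by
    rw [Fintype.card_fun, Fintype.card_fin, ZMod.card, hM]
    push_cast
    rw [mul_pow]
  set κ : (Fin e → ℤ) → (Fin e → ZMod M) := fun v i => (v i : ZMod M) with hκ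
  have hκadd : ∀ a b, κ (a + b) = κ a + κ b := by
    intro a b; ext i; simp [hκ]
  have hκsmul : ∀ (n : ℤ) b, κ (n • b) = n • κ b := by
    intro n b; ext i; simp [hκ]
  have hκeq : ∀ v w : Fin e → ℤ, (∀ i, |v i - w i| < M) → κ v = κ w → v = w := by
    intro v w hvw heq
    ext i
    have h1 := congrFun heq i
    simp only [hκ] at h1
    have h2 : ((v i - w i : ℤ) : ZMod M) = 0 := by push_cast; rw [h1, sub_self]
    rw [ZMod.intCast_zmod_eq_zero_iff_dvd] at h2
    have h3 := Int.eq_zero_of_abs_lt_dvd h2 (hvw i)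
    omega
  have hcube : ∀ v w : Fin e → ℤ, v ∈ Cube x0 L → w ∈ Cube x0 L → ∀ i, |v i - w i| < L := by
    intro v w hv hw i
    have h1 := hv i
    have h2 := hw i
    rw [abs_lt]
    constructor <;> linarith [h1.1, h1.2, h2.1, h2.2]
  set B : Set (Fin e → ZMod M) := κ '' (A ∩ Cube x0 L) with hB
  have hinj : Set.InjOn κ (A ∩ Cube x0 L) := by
    intro v hv w hw heq
    exact hκeq v w (fun i => lt_of_lt_of_le (hcube v w hv.2 hw.2 i) (by exact_mod_cast hML)) heq
  have hBc : B.ncard = (A ∩ Cube x0 L).ncard := hinj.ncard_image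
  have h1 := fin_case h (Fin e → ZMod M) B (by
    rw [hcard, hBc]
    refine le_trans (le_of_eq ?_) hA
    field_simp) (fun t => κ (F t))
  have hL0 : (0 : ℝ) < (L : ℝ) ^ e := by
    have : (0 : ℝ) < L := by exact_mod_cast (by omega : 0 < L)
    positivity
  have h2 : c * N * (L : ℝ) ^ e ≤ c * N * Fintype.card (Fin e → ZMod M) := by
    rw [hcard]
    apply mul_le_mul_of_nonneg_left _ (by positivity)
    have : (1 : ℝ) ≤ (2 * R + 1) ^ e := one_le_pow₀ (by linarith [show (0 : ℝ) ≤ R from by positivity])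
    nlinarith
  refine h2.trans (h1.trans (sum_le_sum fun n hn => ?_))
  rw [mem_Icc] at hn
  apply mul_le_mul_of_nonneg_left _ (hu n)
  norm_cast
  -- injection
  have hfin : {a : Fin e → ℤ | ∀ t, a + n • F t ∈ A ∩ Cube x0 L}.Finite := by
    apply Set.Finite.subset ((Cube_fin x0 L).image (fun v => v - n • F 0))
    intro a ha
    exact ⟨a + n • F 0, (ha 0).2, by simp⟩
  have hex : ∀ x : Fin e → ZMod M, (∀ t, n • κ (F t) + x ∈ B) → ∃ a : Fin e → ℤ, (∀ t, a + n • F t ∈ A ∩ Cube x0 L) ∧ κ a = x := by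
    intro x hx
    obtain ⟨v0, hv0, hv0x⟩ := hx 0
    refine ⟨v0 - n • F 0, ?_, ?_⟩
    · intro t
      obtain ⟨v, hv, hvx⟩ := hx t
      have h3 : v0 - n • F 0 + n • F t = v := by
        apply hκeq
        · intro i
          have h4 := hcube v0 v hv0.2 hv.2 i
          have h5 := hR 0 i
          have h6 := hR t i
          have e1 : (v0 - n • F 0 + n • F t) i - v i = (v0 i - v i) + n * (F t i - F 0 i) := by
            simp only [Pi.add_apply, Pi.sub_apply, Pi.smul_apply, smul_eq_mul]; ring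
          rw [e1]
          have h7 : |n * (F t i - F 0 i)| ≤ L * (2 * R) := by
            rw [abs_mul]
            apply mul_le_mul _ _ (abs_nonneg _) (by positivity)
            · rw [abs_of_nonneg (by omega)]
              have : (N : ℤ) ≤ L := by exact_mod_cast hL
              omega
            · have := abs_sub (F t i) (F 0 i)
              linarith
          have h8 := abs_add_le (v0 i - v i) (n * (F t i - F 0 i))
          have h9 : (M : ℤ) = (2 * R + 1) * L := by rw [hM]; push_cast; ring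
          rw [h9]
          linarith
        · have e1 : κ (v0 - n • F 0 + n • F t) = κ v := by
            have e2 : κ (v0 - n • F 0) = κ v0 - n • κ (F 0) := by
              have h4 := hκadd (v0 - n • F 0) (n • F 0)
              rw [sub_add_cancel, hκsmul] at h4
              rw [h4]; simp
            rw [hκadd, hκsmul, e2, hv0x, hvx]
            abel
          exact e1
      rw [h3]
      exact hv
    · have h4 := hκadd (v0 - n • F 0) (n • F 0)
      rw [sub_add_cancel, hκsmul, hv0x] at h4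
      rw [add_comm] at h4
      exact (add_right_cancel h4).symm
  choose! a ha hax using hex
  refine Set.ncard_le_ncard_of_injOn a (fun x hx => ha x hx) (fun x hx y hy hxy => ?_) hfin
  rw [← hax x hx, ← hax y hy, hxy]

/-- arbitrarily large cubes in which the density is at least `ρ` -/
def Dense {e : ℕ} (A : Set (Fin e → ℤ)) (ρ : ℝ) : Prop :=
  ∀ L₀ : ℕ, ∃ L : ℕ, L₀ ≤ L ∧ ∃ x : Fin e → ℤ, ρ * (L : ℝ) ^ e ≤ ((A ∩ Cube x L).ncard : ℝ)

open Classical in
theorem dense_case {u : ℤ → ℝ} (hu : ∀ n, 0 ≤ u n) (hu1 : ∀ n, u n ≤ 1) {q e : ℕ} (F : Fin (q + 1) → Fin e → ℤ) {R : ℕ} (hR : ∀ t i, |F t i| ≤ R)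
    {ρ c : ℝ} (hc : 0 ≤ c) {N : ℕ}
    (h : Rc u q (ρ / (2 * R + 1) ^ e) c N) (A : Set (Fin e → ℤ)) (hA : Dense A ρ) :
    c / 2 * N ≤ (((Icc (1 : ℤ) N).filter (fun n => u n ≠ 0 ∧ Dense {a : Fin e → ℤ | ∀ t, a + n • F t ∈ A} (c / 2))).card : ℝ) := by
  -- the good set at scale L
  set K : ℕ → Finset ℤ := fun L => (Icc (1 : ℤ) N).filter (fun n => u n ≠ 0 ∧
    ∃ x : Fin e → ℤ, c / 2 * (L : ℝ) ^ e ≤ (({a : Fin e → ℤ | ∀ t, a + n • F t ∈ A} ∩ Cube x L).ncard : ℝ)) with hK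
  have hstep : ∀ L0 : ℕ, ∃ L, L0 ≤ L ∧ c / 2 * N ≤ ((K L).card : ℝ) := by
    intro L0
    obtain ⟨L, hL, x0, hx0⟩ := hA (L0 + N + 1)
    refine ⟨L, by omega, ?_⟩
    have hL0 : (0 : ℝ) < (L : ℝ) ^ e := by
      have : (0 : ℝ) < L := by exact_mod_cast (by omega : 0 < L)
      positivity
    have h1 := cube_case hu F hR hc h (L := L) (by omega) (by omega) x0 A hx0
    have h2 : ∀ n ∈ Icc (1 : ℤ) N, u n * ({a : Fin e → ℤ | ∀ t, a + n • F t ∈ A ∩ Cube x0 L}.ncard : ℝ)
        ≤ (if n ∈ K L then (L : ℝ) ^ e else 0) + c / 2 * (L : ℝ) ^ e := by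
      intro n hn
      have hsub : {a : Fin e → ℤ | ∀ t, a + n • F t ∈ A ∩ Cube x0 L} ⊆ {a : Fin e → ℤ | ∀ t, a + n • F t ∈ A} ∩ Cube (x0 - n • F 0) L := by
        intro a ha
        refine ⟨fun t => (ha t).1, fun i => ?_⟩
        have h3 := (ha 0).2 i
        simp only [Pi.add_apply, Pi.sub_apply] at h3 ⊢
        constructor <;> linarith [h3.1, h3.2]
      have hle : ({a : Fin e → ℤ | ∀ t, a + n • F t ∈ A ∩ Cube x0 L}.ncard : ℝ) ≤ (({a : Fin e → ℤ | ∀ t, a + n • F t ∈ A} ∩ Cube (x0 - n • F 0) L).ncard : ℝ) := by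
        exact_mod_cast Set.ncard_le_ncard hsub ((Cube_fin _ L).inter_of_right _)
      have hle2 : (({a : Fin e → ℤ | ∀ t, a + n • F t ∈ A} ∩ Cube (x0 - n • F 0) L).ncard : ℝ) ≤ (L : ℝ) ^ e := by
        have := Set.ncard_le_ncard (Set.inter_subset_right (s := {a : Fin e → ℤ | ∀ t, a + n • F t ∈ A}) (t := Cube (x0 - n • F 0) L)) (Cube_fin _ L)
        rw [Cube_card] at this
        exact_mod_cast this
      have hle3 : u n * ({a : Fin e → ℤ | ∀ t, a + n • F t ∈ A ∩ Cube x0 L}.ncard : ℝ) ≤ ({a : Fin e → ℤ | ∀ t, a + n • F t ∈ A ∩ Cube x0 L}.ncard : ℝ) :=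
        mul_le_of_le_one_left (Nat.cast_nonneg _) (hu1 n)
      by_cases hnK : n ∈ K L
      · rw [if_pos hnK]
        have : 0 ≤ c / 2 * (L : ℝ) ^ e := by positivity
        linarith
      · rw [if_neg hnK, zero_add]
        by_cases hun : u n = 0
        · rw [hun, zero_mul]; positivity
        · have h4 : ¬ (c / 2 * (L : ℝ) ^ e ≤ (({a : Fin e → ℤ | ∀ t, a + n • F t ∈ A} ∩ Cube (x0 - n • F 0) L).ncard : ℝ)) := by
            intro h5
            exact hnK (mem_filter.2 ⟨hn, hun, _, h5⟩)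
          push Not at h4
          linarith
    have h3 := h1.trans (sum_le_sum h2)
    rw [sum_add_distrib, sum_const, Int.card_Icc, nsmul_eq_mul, ← sum_filter, sum_const, nsmul_eq_mul] at h3
    have h4 : (Icc (1 : ℤ) N).filter (fun n => n ∈ K L) = K L := by
      ext n
      rw [mem_filter]
      constructor
      · exact fun h => h.2
      · exact fun h => ⟨(mem_filter.1 h).1, h⟩
    rw [h4, add_sub_cancel_right, Int.toNat_natCast] at h3
    have h5 : (c / 2 * N) * (L : ℝ) ^ e ≤ ((K L).card : ℝ) * (L : ℝ) ^ e := by nlinarith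
    exact le_of_mul_le_mul_right h5 hL0
  -- pigeonhole
  have hpig : ∃ T : Finset ℤ, T ⊆ Icc (1 : ℤ) N ∧ c / 2 * N ≤ (T.card : ℝ) ∧ ∀ L0 : ℕ, ∃ L, L0 ≤ L ∧ K L = T := by
    by_contra hcon
    push Not at hcon
    have h1 : ∀ T : Finset ℤ, ∃ L0 : ℕ, T ⊆ Icc (1 : ℤ) N → c / 2 * N ≤ (T.card : ℝ) → ∀ L, L0 ≤ L → K L ≠ T := by
      intro T
      by_cases h2 : T ⊆ Icc (1 : ℤ) N ∧ c / 2 * N ≤ (T.card : ℝ)
      · obtain ⟨L0, h3⟩ := hcon T h2.1 h2.2
        exact ⟨L0, fun _ _ => h3⟩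
      · exact ⟨0, fun h3 h4 => absurd ⟨h3, h4⟩ h2⟩
    choose L0 hL0 using h1
    obtain ⟨L, hL, hLc⟩ := hstep (∑ T ∈ (Icc (1 : ℤ) N).powerset, L0 T)
    have h2 : K L ⊆ Icc (1 : ℤ) N := filter_subset _ _
    have h3 : L0 (K L) ≤ ∑ T ∈ (Icc (1 : ℤ) N).powerset, L0 T :=
      single_le_sum (f := L0) (fun _ _ => Nat.zero_le _) (mem_powerset.2 h2)
    exact hL0 (K L) h2 hLc L (h3.trans hL) rfl
  obtain ⟨T, hT1, hT2, hT3⟩ := hpig
  refine hT2.trans ?_
  norm_cast
  apply card_le_card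
  intro n hn
  rw [mem_filter]
  refine ⟨hT1 hn, ?_, ?_⟩
  · obtain ⟨L, _, h1⟩ := hT3 0
    rw [← h1] at hn
    exact (mem_filter.1 hn).2.1
  · intro L0
    obtain ⟨L, hL, h1⟩ := hT3 L0
    rw [← h1] at hn
    exact ⟨L, hL, (mem_filter.1 hn).2.2⟩

end Pool.Agent.U380.MR
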