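import Pool.Agent.U380.MR.V3
import Pool.Agent.U380.MR.V4
import Pool.Agent.W36.GK.K21

/-! Recurrence along the invariant sets of the Collatz map. -/

set_option autoImplicit false

namespace Pool.Agent.U380.MR

open Finset MeasureTheory Pool.Agent.W36.GU Pool.Agent.W36.GV Pool.Agent.W36.GK Pool.Agent.W41 Pool.Agent.H499R2.ND
  Pool.Agent.H499R2.CO Pool.Agent.W41.FU

theorem Sm_Bal {s : ℤ} (hs : s = 1 ∨ s = -1) (k : ℕ) : Sm (k + 1) (Bal s) := GN_all (Bal_hyp hs) k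

theorem rec_inv {s : ℤ} (hs : s = 1 ∨ s = -1) (q : ℕ) {γ ρ : ℝ} (hγ : 0 < γ) (hρ : 0 < ρ) :
    ∃ c : ℝ, 0 < c ∧ ∃ N₀ : ℕ, ∀ (S : Set ℤ) (δ : ℝ), Inv 1 S → HD s S δ → γ ≤ δ → ∀ N : ℕ, N₀ ≤ N → Rc (ind s S) q ρ c N := by
  obtain ⟨c, hc, N0, h⟩ := rec_class (F := Bal s) (fun f hf => Bal_abs hs hf) q (Sm_Bal hs (q + 1)) γ ρ hγ hρ
  refine ⟨c, hc, N0, fun S δ hS hδ hγδ N hN => ?_⟩
  intro G Ω _ _ _ _ μ _ _ B hB hμB g
  exact h (ind s S) δ hγδ ⟨S, hS, δ, hδ, rfl⟩ G Ω μ B hB hμB g N hN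

theorem exists_bound {q e : ℕ} (F : Fin q → Fin e → ℤ) : ∃ R : ℕ, ∀ t i, |F t i| ≤ R := by
  refine ⟨∑ t, ∑ i, (F t i).natAbs, fun t i => ?_⟩
  rw [Int.abs_eq_natAbs]
  have h1 : (F t i).natAbs ≤ ∑ i, (F t i).natAbs :=
    single_le_sum (f := fun i => (F t i).natAbs) (fun _ _ => Nat.zero_le _) (mem_univ i)
  have h2 : ∑ i, (F t i).natAbs ≤ ∑ t, ∑ i, (F t i).natAbs :=
    single_le_sum (f := fun t => ∑ i, (F t i).natAbs) (fun _ _ => Nat.zero_le _) (mem_univ t)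
  exact_mod_cast h1.trans h2

/-- the pairs -/
theorem pairs_eq (s : ℤ) (S : Set ℤ) {q e : ℕ} (F : Fin (q + 1) → Fin e → ℤ) (N L : ℕ) (x0 : Fin e → ℤ) (A : Set (Fin e → ℤ)) :
    ({p : (Fin e → ℤ) × ℤ | 0 < p.2 ∧ p.2 ≤ N ∧ s * p.2 ∈ S ∧ ∀ t, p.1 + p.2 • F t ∈ A ∩ Cube x0 L}.ncard : ℝ)
      = ∑ n ∈ Icc (1 : ℤ) N, ind s S n * ({a : Fin e → ℤ | ∀ t, a + n • F t ∈ A ∩ Cube x0 L}.ncard : ℝ) := by
  classical
  have hfin : ∀ n : ℤ, {a : Fin e → ℤ | ∀ t, a + n • F t ∈ A ∩ Cube x0 L}.Finite := by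
    intro n
    apply Set.Finite.subset ((Cube_fin x0 L).image (fun v => v - n • F 0))
    intro a ha
    exact ⟨a + n • F 0, (ha 0).2, by simp⟩
  have e1 : {p : (Fin e → ℤ) × ℤ | 0 < p.2 ∧ p.2 ≤ N ∧ s * p.2 ∈ S ∧ ∀ t, p.1 + p.2 • F t ∈ A ∩ Cube x0 L}
      = ↑(((Icc (1 : ℤ) N).filter (fun n => s * n ∈ S)).biUnion (fun n => (hfin n).toFinset.image (fun a => (a, n)))) := by
    ext ⟨a, n⟩
    simp only [coe_biUnion, mem_coe, mem_filter, mem_Icc, coe_image, Set.Finite.coe_toFinset, Set.mem_iUnion, Set.mem_image]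
    constructor
    · rintro ⟨h1, h2, h3, h4⟩
      exact ⟨n, ⟨⟨by omega, h2⟩, h3⟩, a, h4, rfl⟩
    · rintro ⟨m, ⟨⟨h1, h2⟩, h3⟩, b, h4, h5⟩
      rw [Prod.mk.injEq] at h5
      obtain ⟨rfl, rfl⟩ := h5
      exact ⟨by simp only; omega, h2, h3, h4⟩
  rw [e1, Set.ncard_coe_finset, card_biUnion]
  · rw [Nat.cast_sum, sum_filter]
    apply sum_congr rfl
    intro n _
    unfold ind
    by_cases h : s * n ∈ S
    · rw [if_pos h, if_pos h, one_mul, card_image_of_injective _ (fun a b hab => (Prod.mk.inj hab).1),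
        ← Set.ncard_eq_toFinset_card _ (hfin n)]
    · rw [if_neg h, if_neg h, zero_mul]
  · intro m _ n _ hmn
    rw [Function.onFun, disjoint_left]
    intro p hp hp'
    rw [mem_image] at hp hp'
    obtain ⟨a, _, rfl⟩ := hp
    obtain ⟨b, _, h⟩ := hp'
    exact hmn (Prod.mk.inj h).2.symm

end Pool.Agent.U380.MR
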