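import Pool.Agent.U380.MR.V3

/-! Classes of weights with small weighted averages in mean square. -/

set_option autoImplicit false

namespace Pool.Agent.U380.MR

open Finset MeasureTheory Pool.Agent.W36.GU Pool.Agent.W36.GV Pool.Agent.W36.GK

/-- the averages of order `k` with the weights of the class are small in mean square -/
def LS (k : ℕ) (F : Set (ℤ → ℝ)) : Prop :=
  ∀ ε : ℝ, 0 < ε → ∃ N₀ : ℕ, ∀ f ∈ F, ∀ (G Ω : Type) [AddCommGroup G] [MeasurableSpace Ω] [AddAction G Ω] [MeasurableConstVAdd G Ω]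
      (μ : Measure Ω) [IsProbabilityMeasure μ] [VAddInvariantMeasure G Ω μ] (g : Fin k → G) (φ : Fin k → Ω → ℝ), Gd φ →
      ∀ N : ℕ, N₀ ≤ N → ∀ M N' : ℕ, M ≤ N' → N' ≤ N →
        ∫ x, Av N g φ (win M N' f) x ^ 2 ∂μ ≤ ε * (N : ℝ) ^ 2

theorem LS_Sm {F : Set (ℤ → ℝ)} (hF : ∀ f ∈ F, ∀ n, |f n| ≤ 1) (k : ℕ) (h : Sm (k + 1) F) : LS k F :=
  fun ε hε => L2_class hF k h ε hε

theorem LS_mono {k : ℕ} {F F' : Set (ℤ → ℝ)} (h : LS k F) (hs : F' ⊆ F) : LS k F' := by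
  intro ε hε
  obtain ⟨N0, h1⟩ := h ε hε
  exact ⟨N0, fun f hf => h1 f (hs hf)⟩

theorem LS_iUnion {k : ℕ} {ι : Type*} (s : Finset ι) {F : ι → Set (ℤ → ℝ)} (h : ∀ i ∈ s, LS k (F i)) :
    LS k {f | ∃ i ∈ s, f ∈ F i} := by
  intro ε hε
  choose! N0 h1 using fun (i : ι) (hi : i ∈ s) => h i hi ε hε
  refine ⟨∑ i ∈ s, N0 i, ?_⟩
  rintro f ⟨i, hi, hf⟩ G Ω _ _ _ _ μ _ _ g φ hφ N hN M N' hM hN'
  have h2 : N0 i ≤ ∑ i ∈ s, N0 i := single_le_sum (f := N0) (fun _ _ => Nat.zero_le _) hi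
  exact h1 i hi f hf G Ω μ g φ hφ N (h2.trans hN) M N' hM hN'

theorem Av_add {G Ω : Type*} [AddCommGroup G] [AddAction G Ω] (X : ℕ) {k : ℕ} (g : Fin k → G) (f : Fin k → Ω → ℝ)
    (w v : ℤ → ℝ) (x : Ω) : Av X g f (fun n => w n + v n) x = Av X g f w x + Av X g f v x := by
  unfold Av
  rw [← sum_add_distrib]
  apply sum_congr rfl
  intro n _
  ring

theorem win_sub (M N : ℕ) (f g : ℤ → ℝ) : win M N (fun n => f n - g n) = fun n => win M N f n + win M N (fun n => - g n) n := by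
  ext n
  unfold win
  split_ifs
  · ring
  · ring

theorem win_add (M N : ℕ) (f g : ℤ → ℝ) : win M N f = fun n => win M N g n + win M N (fun n => f n - g n) n := by
  ext n
  unfold win
  split_ifs
  · ring
  · ring

theorem Av_neg {G Ω : Type*} [AddCommGroup G] [AddAction G Ω] (X : ℕ) {k : ℕ} (g : Fin k → G) (f : Fin k → Ω → ℝ)
    (M N : ℕ) (v : ℤ → ℝ) (x : Ω) : Av X g f (win M N (fun n => - v n)) x = - Av X g f (win M N v) x := by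
  unfold Av
  rw [← sum_neg_distrib]
  apply sum_congr rfl
  intro n _
  unfold win
  split_ifs
  · ring
  · ring

section
variable {G Ω : Type*} [AddCommGroup G] [MeasurableSpace Ω] [AddAction G Ω] [MeasurableConstVAdd G Ω]

theorem Av_sq_int (μ : Measure Ω) [IsProbabilityMeasure μ] (X : ℕ) {k : ℕ} (g : Fin k → G) {φ : Fin k → Ω → ℝ} (hφ : Gd φ) (w : ℤ → ℝ) :
    Integrable (fun x => Av X g φ w x ^ 2) μ := by
  refine int_bdd ((meas_Av X hφ g w).pow_const 2) (C := (∑ n ∈ Icc (1 : ℤ) X, |w n|) ^ 2) (fun x => ?_)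
  rw [abs_pow]
  exact pow_le_pow_left₀ (abs_nonneg _) (Av_bd X hφ g w x) 2

theorem Av_sq_le (μ : Measure Ω) [IsProbabilityMeasure μ] (X : ℕ) {k : ℕ} (g : Fin k → G) {φ : Fin k → Ω → ℝ} (hφ : Gd φ) (w : ℤ → ℝ) :
    ∫ x, Av X g φ w x ^ 2 ∂μ ≤ (∑ n ∈ Icc (1 : ℤ) X, |w n|) ^ 2 := by
  have h1 : ∫ x, Av X g φ w x ^ 2 ∂μ ≤ ∫ _x, (∑ n ∈ Icc (1 : ℤ) X, |w n|) ^ 2 ∂μ := by
    apply integral_mono (Av_sq_int μ X g hφ w) (integrable_const _)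
    intro x
    simp only
    rw [← sq_abs (Av X g φ w x)]
    exact pow_le_pow_left₀ (abs_nonneg _) (Av_bd X hφ g w x) 2
  refine h1.trans (le_of_eq ?_)
  simp

theorem Av_add_le (μ : Measure Ω) [IsProbabilityMeasure μ] (X : ℕ) {k : ℕ} (g : Fin k → G) {φ : Fin k → Ω → ℝ} (hφ : Gd φ)
    (w v : ℤ → ℝ) : ∫ x, Av X g φ (fun n => w n + v n) x ^ 2 ∂μ
      ≤ 2 * ∫ x, Av X g φ w x ^ 2 ∂μ + 2 * ∫ x, Av X g φ v x ^ 2 ∂μ := by
  rw [← integral_const_mul, ← integral_const_mul, ← integral_add ((Av_sq_int μ X g hφ w).const_mul _)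
    ((Av_sq_int μ X g hφ v).const_mul _)]
  apply integral_mono (Av_sq_int μ X g hφ _) (((Av_sq_int μ X g hφ w).const_mul _).add ((Av_sq_int μ X g hφ v).const_mul _))
  intro x
  simp only [Pi.add_apply]
  rw [Av_add]
  nlinarith [sq_nonneg (Av X g φ w x - Av X g φ v x)]

end

/-- differences -/
theorem LS_sub {k : ℕ} {F : Set (ℤ → ℝ)} (h : LS k F) : LS k {f | ∃ a ∈ F, ∃ b ∈ F, f = fun n => a n - b n} := by
  intro ε hε
  obtain ⟨N0, h1⟩ := h (ε / 4) (by positivity)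
  refine ⟨N0, ?_⟩
  rintro f ⟨a, ha, b, hb, rfl⟩ G Ω _ _ _ _ μ _ _ g φ hφ N hN M N' hM hN'
  rw [win_sub]
  refine (Av_add_le μ N g hφ _ _).trans ?_
  have h2 := h1 a ha G Ω μ g φ hφ N hN M N' hM hN'
  have h3 := h1 b hb G Ω μ g φ hφ N hN M N' hM hN'
  have h4 : ∫ x, Av N g φ (win M N' (fun n => - b n)) x ^ 2 ∂μ = ∫ x, Av N g φ (win M N' b) x ^ 2 ∂μ := by
    congr 1
    ext x
    rw [Av_neg]
    ring
  rw [h4]
  calc _ ≤ 2 * (ε / 4 * (N : ℝ) ^ 2) + 2 * (ε / 4 * (N : ℝ) ^ 2) := by linarith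
    _ = ε * (N : ℝ) ^ 2 := by ring

/-- approximation -/
theorem LS_net {k : ℕ} {F : Set (ℤ → ℝ)}
    (h : ∀ η : ℝ, 0 < η → ∃ F' : Set (ℤ → ℝ), LS k F' ∧ ∃ N₁ : ℕ, ∀ f ∈ F, ∃ f' ∈ F', ∀ N : ℕ, N₁ ≤ N →
      ∑ n ∈ Icc (1 : ℤ) N, |f n - f' n| ≤ η * N) : LS k F := by
  intro ε hε
  obtain ⟨F', hF', N1, h1⟩ := h (Real.sqrt (ε / 4)) (by positivity)
  obtain ⟨N0, h2⟩ := hF' (ε / 4) (by positivity)
  refine ⟨N0 + N1, ?_⟩
  intro f hf G Ω _ _ _ _ μ _ _ g φ hφ N hN M N' hM hN'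
  obtain ⟨f', hf', h3⟩ := h1 f hf
  have h4 := h3 N (by omega)
  rw [win_add M N' f f']
  refine (Av_add_le μ N g hφ _ _).trans ?_
  have h5 := h2 f' hf' G Ω μ g φ hφ N (by omega) M N' hM hN'
  have h6 := Av_sq_le μ N g hφ (win M N' (fun n => f n - f' n))
  have h7 : ∑ n ∈ Icc (1 : ℤ) N, |win M N' (fun n => f n - f' n) n| ≤ Real.sqrt (ε / 4) * N := by
    refine (sum_le_sum fun n _ => ?_).trans h4
    unfold win
    split_ifs
    · exact le_rfl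
    · rw [abs_zero]; exact abs_nonneg _
  have h8 : (∑ n ∈ Icc (1 : ℤ) N, |win M N' (fun n => f n - f' n) n|) ^ 2 ≤ ε / 4 * (N : ℝ) ^ 2 := by
    refine (pow_le_pow_left₀ (sum_nonneg fun _ _ => abs_nonneg _) h7 2).trans (le_of_eq ?_)
    rw [mul_pow, Real.sq_sqrt (by positivity)]
  calc _ ≤ 2 * (ε / 4 * (N : ℝ) ^ 2) + 2 * (ε / 4 * (N : ℝ) ^ 2) := by linarith
    _ = ε * (N : ℝ) ^ 2 := by ring

/-- recurrence along the sets of a class -/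
theorem rec_LS {F : Set (ℤ → ℝ)} (q : ℕ) (h : LS (q + 1) F) (γ ρ : ℝ) (hγ : 0 < γ) (hρ : 0 < ρ) :
    ∃ c : ℝ, 0 < c ∧ ∃ N₀ : ℕ, ∀ (u : ℤ → ℝ) (δ : ℝ), γ ≤ δ → (fun n => u n - δ) ∈ F →
      ∀ (G Ω : Type) [AddCommGroup G] [MeasurableSpace Ω] [AddAction G Ω] [MeasurableConstVAdd G Ω]
      (μ : Measure Ω) [IsProbabilityMeasure μ] [VAddInvariantMeasure G Ω μ] (B : Set Ω), MeasurableSet B → ρ ≤ μ.real B →
      ∀ (g : Fin (q + 1) → G) (N : ℕ), N₀ ≤ N → c * N ≤ ∑ n ∈ Icc (1 : ℤ) N, u n * Rt μ g B n := by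
  obtain ⟨c, hc, N1, h1⟩ := FK q ρ hρ
  obtain ⟨N2, h2⟩ := h ((γ * c / 2) ^ 2) (by positivity)
  refine ⟨γ * c / 2, by positivity, N1 + N2, ?_⟩
  intro u δ hδ hu G Ω _ _ _ _ μ _ _ B hB hμB g N hN
  have h3 := h1 G Ω μ B hB hμB g N (by omega)
  have hφ : Gd (fun _ : Fin (q + 1) => B.indicator fun _ : Ω => (1 : ℝ)) :=
    ⟨fun _ => measurable_const.indicator hB, fun _ x => by
      by_cases hx : x ∈ B
      · rw [Set.indicator_of_mem hx]; simp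
      · rw [Set.indicator_of_notMem hx]; simp⟩
  have h4 := h2 _ hu G Ω μ g _ hφ N (by omega) 0 N (Nat.zero_le _) le_rfl
  have h5 := weak μ g hB N (win 0 N (fun n => u n - δ))
  have h6 : |∑ n ∈ Icc (1 : ℤ) N, win 0 N (fun n => u n - δ) n * Rt μ g B n| ≤ γ * c / 2 * N := by
    refine h5.trans ?_
    apply Real.sqrt_le_iff.2
    exact ⟨by positivity, h4.trans (le_of_eq (by ring))⟩
  have h7 : ∑ n ∈ Icc (1 : ℤ) N, win 0 N (fun n => u n - δ) n * Rt μ g B n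
      = ∑ n ∈ Icc (1 : ℤ) N, u n * Rt μ g B n - δ * ∑ n ∈ Icc (1 : ℤ) N, Rt μ g B n := by
    rw [mul_sum, ← sum_sub_distrib]
    apply sum_congr rfl
    intro n hn
    rw [mem_Icc] at hn
    unfold win
    rw [if_pos (by push_cast; omega)]
    ring
  rw [h7, abs_le] at h6
  have h8 : γ * (c * N) ≤ δ * ∑ n ∈ Icc (1 : ℤ) N, Rt μ g B n := mul_le_mul hδ h3 (by positivity) (hγ.le.trans hδ)
  linarith [h6.1]

end Pool.Agent.U380.MR
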