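import Pool.Agent.U380.MR.V6
import Pool.Agent.U380.MR.V4
import Pool.Agent.W36.JL.J9

/-! The total stopping times of the `3x+1` function as weights: uniformity in the thresholds. -/

set_option autoImplicit false

namespace Pool.Agent.U380.MR

open Finset MeasureTheory Filter Topology Pool.Agent.W36.GU Pool.Agent.W36.GV Pool.Agent.W36.GK Pool.Agent.W36.JL
open Pool.Agent.H499R2.ND (Tn Dn cnt cnt_eq cnt_mono Phi Phi_mono Phi_continuous Bas phi_cdf)
open Pool.Agent.W41 (ind ind_nonneg ind_le_one)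
open Pool.Agent.W41.FU (bal)

theorem Phi_top : Tendsto Phi atTop (𝓝 1) := by
  have h := ProbabilityTheory.tendsto_cdf_atTop (ProbabilityTheory.gaussianReal 0 1)
  exact h.congr fun x => (phi_cdf x).symm

theorem Phi_bot : Tendsto Phi atBot (𝓝 0) := by
  have h := ProbabilityTheory.tendsto_cdf_atBot (ProbabilityTheory.gaussianReal 0 1)
  exact h.congr fun x => (phi_cdf x).symm

/-- a finite net of thresholds -/
theorem net {η : ℝ} (hη : 0 < η) : ∃ Y : Finset ℝ, ∀ x : ℝ,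
    (∃ y ∈ Y, ∃ z ∈ Y, y ≤ x ∧ x ≤ z ∧ Phi z - Phi y ≤ η) ∨ (∃ z ∈ Y, x ≤ z ∧ Phi z ≤ η) ∨ (∃ y ∈ Y, y ≤ x ∧ 1 - Phi y ≤ η) := by
  obtain ⟨A, hA⟩ := (Phi_bot.eventually (gt_mem_nhds hη)).exists
  obtain ⟨B, hB, hAB⟩ := ((Phi_top.eventually (lt_mem_nhds (show 1 - η < 1 by linarith))).and (eventually_gt_atTop A)).exists
  have huc := (isCompact_Icc (a := A) (b := B)).uniformContinuousOn_of_continuous Phi_continuous.continuousOn
  rw [Metric.uniformContinuousOn_iff] at huc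
  obtain ⟨d, hd, h⟩ := huc η hη
  obtain ⟨K, hK⟩ := exists_nat_gt ((B - A) / d)
  have hBA : 0 < B - A := by linarith
  have hK0 : (0 : ℝ) < K := lt_trans (by positivity) hK
  set h0 : ℝ := (B - A) / K with hh0
  have hpos : 0 < h0 := by positivity
  have hlt : h0 < d := by
    rw [hh0, div_lt_iff₀ hK0]
    rw [div_lt_iff₀ hd] at hK
    linarith
  have hKh : (K : ℝ) * h0 = B - A := by
    rw [hh0]; field_simp
  refine ⟨(range (K + 1)).image (fun i : ℕ => A + i * h0), fun x => ?_⟩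
  have hmem : ∀ i : ℕ, i ≤ K → A + i * h0 ∈ (range (K + 1)).image (fun i : ℕ => A + i * h0) := by
    intro i hi
    exact mem_image_of_mem _ (mem_range.2 (by omega))
  by_cases h1 : x < A
  · right; left
    refine ⟨A + (0 : ℕ) * h0, hmem 0 (Nat.zero_le _), ?_, ?_⟩
    · simp only [Nat.cast_zero, zero_mul, add_zero]; exact h1.le
    · simp only [Nat.cast_zero, zero_mul, add_zero]; exact hA.le
  by_cases h2 : B ≤ x
  · right; right
    refine ⟨A + (K : ℕ) * h0, hmem K le_rfl, ?_, ?_⟩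
    · rw [hKh]; linarith
    · rw [hKh, add_sub_cancel]; linarith
  left
  push Not at h1 h2
  set i : ℕ := ⌊(x - A) / h0⌋₊ with hi
  have h3 : (i : ℝ) ≤ (x - A) / h0 := Nat.floor_le (div_nonneg (by linarith) hpos.le)
  have h4 : (x - A) / h0 < i + 1 := Nat.lt_floor_add_one _
  rw [le_div_iff₀ hpos] at h3
  rw [div_lt_iff₀ hpos] at h4
  have h5 : i < K := by
    by_contra h5
    push Not at h5
    have : (K : ℝ) ≤ i := by exact_mod_cast h5
    nlinarith
  have h6 : ((i : ℝ) + 1) ≤ K := by exact_mod_cast h5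
  refine ⟨A + i * h0, hmem i h5.le, A + ((i + 1 : ℕ) : ℝ) * h0, hmem (i + 1) h5, by linarith, by push_cast; linarith, ?_⟩
  have h7 := h (A + ((i + 1 : ℕ) : ℝ) * h0) ⟨by push_cast; nlinarith [Nat.cast_nonneg (α := ℝ) i], by push_cast; nlinarith⟩
    (A + i * h0) ⟨by nlinarith [Nat.cast_nonneg (α := ℝ) i], by nlinarith⟩ (by
      rw [Real.dist_eq]
      push_cast
      have : A + ((i : ℝ) + 1) * h0 - (A + i * h0) = h0 := by ring
      rw [this, abs_of_pos hpos]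
      exact hlt)
  rw [Real.dist_eq] at h7
  exact (le_abs_self _).trans h7.le

/-- the balanced functions of all level sets -/
def cls (δ : ℝ) (m : ℕ) : Set (ℤ → ℝ) := {f | ∃ (a : ℤ) (x : ℝ), f = bal 1 (SX m a x) (δ * Phi x / m)}

theorem L1_gen {f f' : ℤ → ℝ} {P : ℕ → Prop} [DecidablePred P] {c : ℝ} (h : ∀ n : ℕ, 1 ≤ n → |f n - f' n| ≤ (if P n then 1 else 0) + c) (N : ℕ) :
    ∑ n ∈ Icc (1 : ℤ) N, |f n - f' n| ≤ cnt P N + c * N := by
  rw [sum_cast]
  refine (sum_le_sum (fun n hn => h n (mem_Icc.1 hn).1)).trans (le_of_eq ?_)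
  rw [sum_add_distrib, cnt_eq, sum_boole, sum_const, Nat.card_Icc, nsmul_eq_mul]
  simp
  ring

theorem EB_mod {m : ℕ} {a : ℤ} {B : ℝ} {n : ℕ} : EB m (a % m) B n ↔ EB m a B n := by
  unfold EB
  apply exists_congr
  intro t
  rw [and_congr_right_iff]
  intro _
  rw [and_congr_right_iff]
  intro _
  exact ⟨fun h => h.trans (Int.mod_modEq a m), fun h => h.trans (Int.mod_modEq a m).symm⟩

theorem SX_mod {m : ℕ} {a : ℤ} {x : ℝ} : SX m (a % m) x = SX m a x := by
  ext n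
  unfold SX
  simp only [Set.mem_ofPred_eq, EB_mod]

theorem EB_one {m : ℕ} {a : ℤ} {B : ℝ} {n : ℕ} (h : EB m a B n) : EB 1 0 B n := by
  obtain ⟨t, h1, h2, -⟩ := h
  exact ⟨t, h1, h2, Int.modEq_one⟩

/-- `n` is counted for `(a, x)` and not for `(a, y)` -/
theorem EB_diff {m : ℕ} {a : ℤ} {B B' : ℝ} {n : ℕ} (h : EB m a B n) (h' : ¬ EB m a B' n) : ¬ EB 1 0 B' n := by
  rintro ⟨t, h1, h2, -⟩
  obtain ⟨t', h3, h4, h5⟩ := h
  obtain rfl := TS_unique h2 h4
  exact h' ⟨t, h1, h4, h5⟩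

theorem EB_Bas {m : ℕ} {a : ℤ} {B : ℝ} {n : ℕ} (h : EB m a B n) : ∃ k : ℕ, Tn^[k] n = 1 := by
  obtain ⟨t, -, h2, -⟩ := h
  exact ⟨t, h2.1⟩

theorem LS_union {k : ℕ} {F F' : Set (ℤ → ℝ)} (h : LS k F) (h' : LS k F') : LS k (F ∪ F') := by
  have h1 := LS_iUnion (k := k) (univ : Finset Bool) (F := fun b => if b then F else F') (by
    intro i _
    cases i
    · exact h'
    · exact h)
  apply LS_mono h1
  rintro f (hf | hf)
  · exact ⟨true, mem_univ _, hf⟩
  · exact ⟨false, mem_univ _, hf⟩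

theorem LS_zero (k : ℕ) : LS k {fun _ : ℤ => (0 : ℝ)} := by
  intro ε hε
  refine ⟨0, ?_⟩
  rintro f rfl G Ω _ _ _ _ μ _ _ g φ hφ N _ M N' _ _
  refine (Av_sq_le μ N g hφ _).trans ?_
  have : ∑ n ∈ Icc (1 : ℤ) N, |win M N' (fun _ => (0 : ℝ)) n| = 0 := by
    apply sum_eq_zero
    intro n _
    unfold win
    simp
  rw [this, zero_pow two_ne_zero]
  positivity

/-- all averages with the level sets as weights are small, uniformly in the thresholds and the residue classes -/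
theorem LS_cls {δ : ℝ} (h0 : 0 < δ) (h1 : δ ≤ 1) {m : ℕ} (hm : 1 ≤ m)
    (hlaw : ∀ (m : ℕ) (a : ℤ), 1 ≤ m → ∀ x : ℝ, Dn (fun n => EB m a (bd x n) n) (δ * Phi x / m))
    (hbas : Dn (fun n => ∃ k : ℕ, Tn^[k] n = 1) δ) (k : ℕ) : LS k (cls δ m) := by
  classical
  have hm1 : (1 : ℝ) ≤ m := by exact_mod_cast hm
  have hm0 : (0 : ℝ) < m := by linarith
  apply LS_net
  intro η hη
  have hη4 : 0 < η / 4 := by positivity
  obtain ⟨Y, hY⟩ := net hη4
  refine ⟨{fun _ => (0 : ℝ)} ∪ {f | ∃ i ∈ Y ×ˢ range m, f ∈ FF δ m (fun _ : Fin 1 => (i.2 : ℤ)) (fun _ => i.1)}, ?_, ?_⟩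
  · apply LS_union (LS_zero k)
    apply LS_iUnion
    intro i _
    apply LS_Sm
    · rintro _ ⟨j, rfl⟩ n
      exact bal_abs' _ (dens_mem h0 h1 hm _).1 (dens_mem h0 h1 hm _).2 n
    · exact GN_all (FF_hyp h0 h1 hm _ _ (fun a x => hlaw m a hm x)) k
  have e1 : ∀ᶠ N : ℕ in atTop, ∀ y ∈ Y, |cnt (fun n => EB 1 0 (bd y n) n) N - δ * Phi y * N| ≤ η / 4 * N := by
    rw [eventually_all_finset]
    intro y _
    have h2 := hlaw 1 0 le_rfl y
    rw [Nat.cast_one, div_one] at h2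
    filter_upwards [(Metric.tendsto_nhds.1 h2) (η / 4) hη4, eventually_gt_atTop 0] with N hN hN0
    have hN1 : (0 : ℝ) < N := by exact_mod_cast hN0
    rw [Real.dist_eq] at hN
    have e2 : cnt (fun n => EB 1 0 (bd y n) n) N - δ * Phi y * N = (cnt (fun n => EB 1 0 (bd y n) n) N / N - δ * Phi y) * N := by
      field_simp
    rw [e2, abs_mul, abs_of_pos hN1]
    exact mul_le_mul_of_nonneg_right hN.le hN1.le
  have e2 : ∀ᶠ N : ℕ in atTop, |cnt (fun n => ∃ k : ℕ, Tn^[k] n = 1) N - δ * N| ≤ η / 4 * N := by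
    filter_upwards [(Metric.tendsto_nhds.1 hbas) (η / 4) hη4, eventually_gt_atTop 0] with N hN hN0
    have hN1 : (0 : ℝ) < N := by exact_mod_cast hN0
    rw [Real.dist_eq] at hN
    have e2 : cnt (fun n => ∃ k : ℕ, Tn^[k] n = 1) N - δ * N = (cnt (fun n => ∃ k : ℕ, Tn^[k] n = 1) N / N - δ) * N := by
      field_simp
    rw [e2, abs_mul, abs_of_pos hN1]
    exact mul_le_mul_of_nonneg_right hN.le hN1.le
  obtain ⟨N1, hN1⟩ := eventually_atTop.1 (e1.and e2)
  refine ⟨N1, ?_⟩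
  rintro f ⟨a, x, rfl⟩
  -- the comparison with a smaller threshold
  have hfrac : ∀ t : ℝ, 0 ≤ t → δ * t / m ≤ t := by
    intro t ht
    rw [div_le_iff₀ hm0]
    have : δ * t ≤ t := by nlinarith
    nlinarith
  have hcmp : ∀ y : ℝ, y ≤ x → ∀ n : ℕ, 1 ≤ n →
      |bal 1 (SX m a x) (δ * Phi x / m) n - bal 1 (SX m (a % m) y) (δ * Phi y / m) n|
        ≤ (if EB m a (bd x n) n ∧ ¬ EB m a (bd y n) n then 1 else 0) + (Phi x - Phi y) := by
    intro y hyx n hn
    rw [bal_nat _ _ _ _ hn, bal_nat _ _ _ _ hn, EB_mod]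
    have h2 : 0 ≤ Phi x - Phi y := by linarith [Phi_mono hyx]
    have h3 := hfrac _ h2
    have h4 : 0 ≤ δ * (Phi x - Phi y) / m := by positivity
    have e3 : δ * (Phi x - Phi y) / m = δ * Phi x / m - δ * Phi y / m := by ring
    by_cases h5 : EB m a (bd y n) n
    · have h6 : EB m a (bd x n) n := EB_mono (bd_mono hyx n) h5
      rw [if_pos h5, if_pos h6, if_neg (fun h => h.2 h5), abs_le]
      constructor <;> linarith
    · by_cases h6 : EB m a (bd x n) n
      · rw [if_neg h5, if_pos h6, if_pos ⟨h6, h5⟩, abs_le]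
        constructor <;> linarith
      · rw [if_neg h5, if_neg h6, if_neg (fun h => h6 h.1), abs_le]
        constructor <;> linarith
  have hmemY : ∀ y ∈ Y, bal 1 (SX m (a % m) y) (δ * Phi y / m) ∈
      ({fun _ => (0 : ℝ)} ∪ {f | ∃ i ∈ Y ×ˢ range m, f ∈ FF δ m (fun _ : Fin 1 => (i.2 : ℤ)) (fun _ => i.1)} : Set (ℤ → ℝ)) := by
    intro y hy
    right
    have h2 : 0 ≤ a % (m : ℤ) := Int.emod_nonneg _ (by omega)
    have h3 : a % (m : ℤ) < m := Int.emod_lt_of_pos _ (by omega)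
    refine ⟨(y, (a % (m : ℤ)).toNat), mem_product.2 ⟨hy, mem_range.2 (by omega)⟩, 0, ?_⟩
    simp only [Int.toNat_of_nonneg h2]
  rcases hY x with ⟨y, hy, z, hz, hyx, hxz, hP⟩ | ⟨z, hz, hxz, hP⟩ | ⟨y, hy, hyx, hP⟩
  · refine ⟨_, hmemY y hy, fun N hN => ?_⟩
    refine (L1_gen (hcmp y hyx) N).trans ?_
    have h2 : cnt (fun n => EB m a (bd x n) n ∧ ¬ EB m a (bd y n) n) N ≤ cnt (fun n => EB 1 0 (bd z n) n ∧ ¬ EB 1 0 (bd y n) n) N := by
      apply cnt_mono
      rintro n _ _ ⟨h3, h4⟩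
      exact ⟨EB_one (EB_mono (bd_mono hxz n) h3), EB_diff h3 h4⟩
    rw [cnt_diff (fun n _ h => EB_mono (bd_mono (hyx.trans hxz) n) h)] at h2
    have h3 := abs_le.1 ((hN1 N hN).1 y hy)
    have h4 := abs_le.1 ((hN1 N hN).1 z hz)
    have h5 : δ * (Phi z - Phi y) * N ≤ η / 4 * N := by
      apply mul_le_mul_of_nonneg_right _ (by positivity)
      nlinarith [Phi_mono (hyx.trans hxz)]
    have h6 : (Phi x - Phi y) * N ≤ η / 4 * N := by
      apply mul_le_mul_of_nonneg_right _ (by positivity)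
      linarith [Phi_mono hxz]
    nlinarith [h3.1, h4.2]
  · refine ⟨fun _ => 0, Or.inl rfl, fun N hN => ?_⟩
    have hc : ∀ n : ℕ, 1 ≤ n → |bal 1 (SX m a x) (δ * Phi x / m) n - (fun _ : ℤ => (0 : ℝ)) n|
        ≤ (if EB m a (bd x n) n then 1 else 0) + Phi x := by
      intro n hn
      rw [bal_nat _ _ _ _ hn]
      have h2 := hfrac _ (Phi_nonneg x)
      have h3 := (dens_mem h0 h1 hm x).1
      have h4 := (dens_mem h0 h1 hm x).2
      by_cases h6 : EB m a (bd x n) n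
      · rw [if_pos h6, sub_zero, abs_le]
        constructor <;> linarith [Phi_nonneg x]
      · rw [if_neg h6, sub_zero, abs_le]
        constructor <;> linarith [Phi_nonneg x]
    refine (L1_gen hc N).trans ?_
    have h2 : cnt (fun n => EB m a (bd x n) n) N ≤ cnt (fun n => EB 1 0 (bd z n) n) N := by
      apply cnt_mono
      intro n _ _ h3
      exact EB_one (EB_mono (bd_mono hxz n) h3)
    have h4 := abs_le.1 ((hN1 N hN).1 z hz)
    have h5 : δ * Phi z * N ≤ η / 4 * N := by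
      apply mul_le_mul_of_nonneg_right _ (by positivity)
      nlinarith [Phi_nonneg z]
    have h6 : Phi x * N ≤ η / 4 * N := by
      apply mul_le_mul_of_nonneg_right _ (by positivity)
      linarith [Phi_mono hxz]
    nlinarith [h4.2]
  · refine ⟨_, hmemY y hy, fun N hN => ?_⟩
    refine (L1_gen (hcmp y hyx) N).trans ?_
    have h2 : cnt (fun n => EB m a (bd x n) n ∧ ¬ EB m a (bd y n) n) N
        ≤ cnt (fun n => (∃ k : ℕ, Tn^[k] n = 1) ∧ ¬ EB 1 0 (bd y n) n) N := by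
      apply cnt_mono
      rintro n _ _ ⟨h3, h4⟩
      exact ⟨EB_Bas h3, EB_diff h3 h4⟩
    rw [cnt_diff (fun n _ h => EB_Bas h)] at h2
    have h3 := abs_le.1 ((hN1 N hN).1 y hy)
    have h4 := abs_le.1 (hN1 N hN).2
    have h5 : δ * (1 - Phi y) * N ≤ η / 4 * N := by
      apply mul_le_mul_of_nonneg_right _ (by positivity)
      nlinarith [Phi_le_one y]
    have h6 : (Phi x - Phi y) * N ≤ η / 4 * N := by
      apply mul_le_mul_of_nonneg_right _ (by positivity)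
      linarith [Phi_le_one x]
    nlinarith [h3.1, h4.2]

end Pool.Agent.U380.MR
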