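import Pool.Agent.U380.MR.V7

/-! The integers with a total stopping time at most `c log n`. -/

set_option autoImplicit false

namespace Pool.Agent.U380.MR

open Finset MeasureTheory Filter Topology Pool.Agent.W36.GU Pool.Agent.W36.GV Pool.Agent.W36.GK Pool.Agent.W36.JL
open Pool.Agent.H499R2.ND (Tn Dn cnt cnt_eq cnt_mono Phi Phi_mono Phi_continuous Bas phi_cdf)
open Pool.Agent.W41 (ind ind_nonneg ind_le_one)
open Pool.Agent.W41.FU (bal)

/-- total stopping time at most `c log n` -/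
def LgS (c : ℝ) : Set ℤ := {n : ℤ | 0 < n ∧ ∃ t : ℕ, (t : ℝ) ≤ c * Real.log n ∧ TS n.toNat t}

/-- the class -/
def lcls (δ c1 : ℝ) : Set (ℤ → ℝ) := {f | ∃ c : ℝ, c1 ≤ c ∧ f = bal 1 (LgS c) δ}

theorem bd_le_log (x : ℝ) {c1 : ℝ} (hc : 2 / Real.log (4 / 3) < c1) : ∃ n0 : ℕ, ∀ n : ℕ, n0 ≤ n → bd x n ≤ c1 * Real.log n := by
  have h1 : Tendsto (fun n : ℕ => Real.sqrt (Real.log n)) atTop atTop :=
    Real.tendsto_sqrt_atTop.comp (Real.tendsto_log_atTop.comp tendsto_natCast_atTop_atTop)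
  set C : ℝ := Real.log 3 * Real.sqrt (2 / Real.log (4 / 3) ^ 3) with hC
  obtain ⟨n0, h2⟩ := eventually_atTop.1 (h1.eventually_ge_atTop (x * C / (c1 - 2 / Real.log (4 / 3))))
  refine ⟨n0 + 1, fun n hn => ?_⟩
  have h3 := h2 n (by omega)
  have h4 : 0 < c1 - 2 / Real.log (4 / 3) := by linarith
  rw [div_le_iff₀ h4] at h3
  have hlog : 0 ≤ Real.log n := Real.log_natCast_nonneg n
  have h5 : Real.sqrt (Real.log n) * Real.sqrt (Real.log n) = Real.log n := Real.mul_self_sqrt hlog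
  rw [bd_eq, sdv_eq, ← hC]
  have h6 : x * C * Real.sqrt (Real.log n) ≤ Real.sqrt (Real.log n) * (c1 - 2 / Real.log (4 / 3)) * Real.sqrt (Real.log n) :=
    mul_le_mul_of_nonneg_right h3 (Real.sqrt_nonneg _)
  calc 2 / Real.log (4 / 3) * Real.log n + x * (C * Real.sqrt (Real.log n))
      = 2 / Real.log (4 / 3) * Real.log n + x * C * Real.sqrt (Real.log n) := by ring
    _ ≤ 2 / Real.log (4 / 3) * Real.log n + Real.sqrt (Real.log n) * (c1 - 2 / Real.log (4 / 3)) * Real.sqrt (Real.log n) := by linarith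
    _ = 2 / Real.log (4 / 3) * Real.log n + (c1 - 2 / Real.log (4 / 3)) * (Real.sqrt (Real.log n) * Real.sqrt (Real.log n)) := by ring
    _ = c1 * Real.log n := by rw [h5]; ring

open Classical in
theorem balL_nat (c d : ℝ) {n : ℕ} (hn : 1 ≤ n) :
    bal 1 (LgS c) d (n : ℕ) = (if ∃ t : ℕ, (t : ℝ) ≤ c * Real.log n ∧ TS n t then 1 else 0) - d := by
  unfold bal ind LgS
  have h : (0 : ℤ) < n := by exact_mod_cast hn
  simp only [one_mul, Set.mem_ofPred_eq, h, true_and, Int.toNat_natCast, Int.cast_natCast]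

/-- exceptions are rare, up to density `1 - δ` -/
theorem approx_log {δ : ℝ} (h0 : 0 < δ) (h1 : δ ≤ 1)
    (hlaw : ∀ (m : ℕ) (a : ℤ), 1 ≤ m → ∀ x : ℝ, Dn (fun n => EB m a (bd x n) n) (δ * Phi x / m))
    (hbas : Dn (fun n => ∃ k : ℕ, Tn^[k] n = 1) δ) {c1 : ℝ} (hc1 : 2 / Real.log (4 / 3) < c1) {η : ℝ} (hη : 0 < η) :
    ∃ x : ℝ, ∃ N₁ : ℕ, ∀ c : ℝ, c1 ≤ c → ∀ N : ℕ, N₁ ≤ N →
      ∑ n ∈ Icc (1 : ℤ) N, |bal 1 (LgS c) δ n - bal 1 (SX 1 0 x) (δ * Phi x / (1 : ℕ)) n| ≤ η * N := by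
  classical
  have hη4 : 0 < η / 4 := by positivity
  obtain ⟨x, hx⟩ := (Phi_top.eventually (lt_mem_nhds (show 1 - η / 4 < 1 by linarith))).exists
  obtain ⟨n0, hn0⟩ := bd_le_log x hc1
  refine ⟨x, ?_⟩
  have e1 : ∀ᶠ N : ℕ in atTop, |cnt (fun n => EB 1 0 (bd x n) n) N - δ * Phi x * N| ≤ η / 8 * N := by
    have h2 := hlaw 1 0 le_rfl x
    rw [Nat.cast_one, div_one] at h2
    filter_upwards [(Metric.tendsto_nhds.1 h2) (η / 8) (by positivity), eventually_gt_atTop 0] with N hN hN0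
    have hN1 : (0 : ℝ) < N := by exact_mod_cast hN0
    rw [Real.dist_eq] at hN
    have e2 : cnt (fun n => EB 1 0 (bd x n) n) N - δ * Phi x * N = (cnt (fun n => EB 1 0 (bd x n) n) N / N - δ * Phi x) * N := by
      field_simp
    rw [e2, abs_mul, abs_of_pos hN1]
    exact mul_le_mul_of_nonneg_right hN.le hN1.le
  have e2 : ∀ᶠ N : ℕ in atTop, |cnt (fun n => ∃ k : ℕ, Tn^[k] n = 1) N - δ * N| ≤ η / 8 * N := by
    filter_upwards [(Metric.tendsto_nhds.1 hbas) (η / 8) (by positivity), eventually_gt_atTop 0] with N hN hN0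
    have hN1 : (0 : ℝ) < N := by exact_mod_cast hN0
    rw [Real.dist_eq] at hN
    have e2 : cnt (fun n => ∃ k : ℕ, Tn^[k] n = 1) N - δ * N = (cnt (fun n => ∃ k : ℕ, Tn^[k] n = 1) N / N - δ) * N := by
      field_simp
    rw [e2, abs_mul, abs_of_pos hN1]
    exact mul_le_mul_of_nonneg_right hN.le hN1.le
  have e3 : ∀ᶠ N : ℕ in atTop, (n0 : ℝ) ≤ η / 4 * N := by
    have : Tendsto (fun N : ℕ => η / 4 * (N : ℝ)) atTop atTop := tendsto_natCast_atTop_atTop.const_mul_atTop hη4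
    exact this.eventually_ge_atTop _
  obtain ⟨N1, hN1⟩ := eventually_atTop.1 ((e1.and e2).and e3)
  refine ⟨N1, fun c hc N hN => ?_⟩
  obtain ⟨⟨h3, h4⟩, h5⟩ := hN1 N hN
  have hcmp : ∀ n : ℕ, 1 ≤ n → |bal 1 (LgS c) δ n - bal 1 (SX 1 0 x) (δ * Phi x / (1 : ℕ)) n|
      ≤ (if ((∃ k : ℕ, Tn^[k] n = 1) ∧ ¬ EB 1 0 (bd x n) n) ∨ n < n0 then 1 else 0) + η / 4 := by
    intro n hn
    rw [balL_nat _ _ hn, bal_nat _ _ _ _ hn, Nat.cast_one, div_one]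
    have h6 : 0 ≤ δ - δ * Phi x := by nlinarith [Phi_le_one x]
    have h7 : δ - δ * Phi x ≤ η / 4 := by nlinarith [Phi_le_one x]
    by_cases h8 : ∃ t : ℕ, (t : ℝ) ≤ c * Real.log n ∧ TS n t
    · by_cases h9 : EB 1 0 (bd x n) n
      · rw [if_pos h8, if_pos h9]
        have h10 : (0 : ℝ) ≤ if ((∃ k : ℕ, Tn^[k] n = 1) ∧ ¬ EB 1 0 (bd x n) n) ∨ n < n0 then 1 else 0 := by split_ifs <;> norm_num
        rw [abs_le]
        constructor <;> linarith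
      · have h10 : (∃ k : ℕ, Tn^[k] n = 1) := by obtain ⟨t, -, h11⟩ := h8; exact ⟨t, h11.1⟩
        rw [if_pos h8, if_neg h9, if_pos (Or.inl ⟨h10, h9⟩), abs_le]
        constructor <;> linarith
    · by_cases h9 : EB 1 0 (bd x n) n
      · have h10 : n < n0 := by
          by_contra h10
          obtain ⟨t, h11, h12, -⟩ := h9
          refine h8 ⟨t, h11.trans ((hn0 n (not_lt.1 h10)).trans ?_), h12⟩
          exact mul_le_mul_of_nonneg_right hc (Real.log_natCast_nonneg n)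
        rw [if_neg h8, if_pos h9, if_pos (Or.inr h10), abs_le]
        constructor <;> linarith
      · rw [if_neg h8, if_neg h9]
        have h10 : (0 : ℝ) ≤ if ((∃ k : ℕ, Tn^[k] n = 1) ∧ ¬ EB 1 0 (bd x n) n) ∨ n < n0 then 1 else 0 := by split_ifs <;> norm_num
        rw [abs_le]
        constructor <;> linarith
  refine (L1_gen hcmp N).trans ?_
  have h6 : cnt (fun n => ((∃ k : ℕ, Tn^[k] n = 1) ∧ ¬ EB 1 0 (bd x n) n) ∨ n < n0) N
      ≤ cnt (fun n => (∃ k : ℕ, Tn^[k] n = 1) ∧ ¬ EB 1 0 (bd x n) n) N + n0 := by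
    rw [cnt_eq, cnt_eq, ← Nat.cast_add]
    norm_cast
    have h7 : (Icc 1 N).filter (fun n => ((∃ k : ℕ, Tn^[k] n = 1) ∧ ¬ EB 1 0 (bd x n) n) ∨ n < n0)
        ⊆ (Icc 1 N).filter (fun n => (∃ k : ℕ, Tn^[k] n = 1) ∧ ¬ EB 1 0 (bd x n) n) ∪ range n0 := by
      intro n hn
      rw [mem_filter] at hn
      rw [mem_union, mem_filter, mem_range]
      rcases hn.2 with h | h
      · exact Or.inl ⟨hn.1, h⟩
      · exact Or.inr h
    refine (card_le_card h7).trans ((card_union_le _ _).trans ?_)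
    rw [card_range]
  rw [cnt_diff (fun n _ h => EB_Bas h)] at h6
  have h7 := abs_le.1 h3
  have h8 := abs_le.1 h4
  have h9 : δ * (1 - Phi x) * N ≤ η / 4 * N := by
    apply mul_le_mul_of_nonneg_right _ (by positivity)
    nlinarith [Phi_le_one x]
  nlinarith [h7.1, h8.2]

theorem LS_lcls {δ : ℝ} (h0 : 0 < δ) (h1 : δ ≤ 1)
    (hlaw : ∀ (m : ℕ) (a : ℤ), 1 ≤ m → ∀ x : ℝ, Dn (fun n => EB m a (bd x n) n) (δ * Phi x / m))
    (hbas : Dn (fun n => ∃ k : ℕ, Tn^[k] n = 1) δ) {c1 : ℝ} (hc1 : 2 / Real.log (4 / 3) < c1) (k : ℕ) : LS k (lcls δ c1) := by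
  apply LS_net
  intro η hη
  obtain ⟨x, N1, h⟩ := approx_log h0 h1 hlaw hbas hc1 hη
  refine ⟨cls δ 1, LS_cls h0 h1 le_rfl hlaw hbas k, N1, ?_⟩
  rintro f ⟨c, hc, rfl⟩
  exact ⟨_, ⟨0, x, rfl⟩, fun N hN => h c hc N hN⟩

/-- the number of exceptions if `δ = 1` -/
theorem exc_small (hlaw : ∀ (m : ℕ) (a : ℤ), 1 ≤ m → ∀ x : ℝ, Dn (fun n => EB m a (bd x n) n) (1 * Phi x / m))
    (hbas : Dn (fun n => ∃ k : ℕ, Tn^[k] n = 1) 1) {c1 : ℝ} (hc1 : 2 / Real.log (4 / 3) < c1) {η : ℝ} (hη : 0 < η) :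
    ∃ N₁ : ℕ, ∀ N : ℕ, N₁ ≤ N → ∑ n ∈ Icc (1 : ℤ) N, (1 - ind 1 (LgS c1) n) ≤ η * N := by
  classical
  obtain ⟨x, N1, h⟩ := approx_log one_pos le_rfl hlaw hbas hc1 (η := η / 2) (by positivity)
  have e1 : ∀ᶠ N : ℕ in atTop, |cnt (fun n => EB 1 0 (bd x n) n) N - Phi x * N| ≤ η / 2 * N := by
    have h2 := hlaw 1 0 le_rfl x
    rw [Nat.cast_one, div_one, one_mul] at h2
    filter_upwards [(Metric.tendsto_nhds.1 h2) (η / 2) (by positivity), eventually_gt_atTop 0] with N hN hN0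
    have hN1 : (0 : ℝ) < N := by exact_mod_cast hN0
    rw [Real.dist_eq] at hN
    have e2 : cnt (fun n => EB 1 0 (bd x n) n) N - Phi x * N = (cnt (fun n => EB 1 0 (bd x n) n) N / N - Phi x) * N := by
      field_simp
    rw [e2, abs_mul, abs_of_pos hN1]
    exact mul_le_mul_of_nonneg_right hN.le hN1.le
  obtain ⟨N2, hN2⟩ := eventually_atTop.1 e1
  refine ⟨N1 + N2, fun N hN => ?_⟩
  have h3 := h c1 le_rfl N (by omega)
  have h4 := hN2 N (by omega)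
  have h5 : ∑ n ∈ Icc (1 : ℤ) N, bal 1 (SX 1 0 x) (1 * Phi x / (1 : ℕ)) n = cnt (fun n => EB 1 0 (bd x n) n) N - Phi x * N := by
    rw [sum_cast, cnt_eq]
    rw [sum_congr rfl (fun n hn => bal_nat 1 0 x (1 * Phi x / (1 : ℕ)) (mem_Icc.1 hn).1)]
    rw [sum_sub_distrib, sum_boole, sum_const, Nat.card_Icc, nsmul_eq_mul]
    simp
    ring
  have h6 : ∑ n ∈ Icc (1 : ℤ) N, (1 - ind 1 (LgS c1) n)
      = ∑ n ∈ Icc (1 : ℤ) N, (bal 1 (SX 1 0 x) (1 * Phi x / (1 : ℕ)) n - bal 1 (LgS c1) 1 n)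
        - ∑ n ∈ Icc (1 : ℤ) N, bal 1 (SX 1 0 x) (1 * Phi x / (1 : ℕ)) n := by
    rw [← sum_sub_distrib]
    apply sum_congr rfl
    intro n _
    unfold bal
    ring
  have h7 : ∑ n ∈ Icc (1 : ℤ) N, (bal 1 (SX 1 0 x) (1 * Phi x / (1 : ℕ)) n - bal 1 (LgS c1) 1 n) ≤ η / 2 * N := by
    refine le_trans (sum_le_sum fun n _ => ?_) h3
    rw [abs_sub_comm]
    exact le_abs_self _
  rw [h6, h5]
  have h8 := (abs_le.1 h4).1
  linarith

end Pool.Agent.U380.MR
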